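import Pool.Agent.Q217.CR.Proc

set_option autoImplicit false

/-! The total weight is finite. -/

namespace Q217.CR

variable (e : ℕ → Option (List Bool × List Bool)) (κ : ℕ)

/-- The weight of the length `j`. -/
noncomputable def wt (j : ℕ) : ℝ := (1 / 2) ^ ii e κ j

/-- The score of `x` at stage `t`. -/
noncomputable def sc (t j : ℕ) (x : List Bool) : ℝ := 2 ^ (dfc e t (κ * ii e κ j) x / 2)

/-- The cost hypothesis. -/
def Cost : Prop := ∀ T, ∑ j ∈ Finset.range T, wt e κ j *
  ((1 / 2) ^ j * ∑ x ∈ strsF j, sc e κ T j x) ≤ 4 * ∑ j ∈ Finset.range T, wt e κ j + 1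

variable {e κ}

theorem wt_pos (j : ℕ) : 0 < wt e κ j := by unfold wt; positivity

theorem sc_pos (t j : ℕ) (x : List Bool) : 0 < sc e κ t j x := by unfold sc; positivity

theorem dfc_mono {s t : ℕ} (h : s ≤ t) (i0 : ℕ) (x : List Bool) : dfc e s i0 x ≤ dfc e t i0 x :=
  Finset.sup_mono (Finset.range_mono h)

theorem dfc_le (t i0 : ℕ) (x : List Bool) : dfc e t i0 x ≤ x.length + i0 := by
  refine Finset.sup_le fun i _ => ?_
  unfold dterm
  cases e i with
  | none => exact Nat.zero_le _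
  | some o =>
    show (if o.2 = x then x.length + i0 - o.1.length else 0) ≤ _
    split_ifs
    · exact Nat.sub_le _ _
    · exact Nat.zero_le _

theorem sc_mono {s t : ℕ} (h : s ≤ t) (j : ℕ) (x : List Bool) :
    sc e κ s j x ≤ sc e κ t j x := by
  unfold sc
  exact pow_le_pow_right₀ (by norm_num) (Nat.div_le_div_right (dfc_mono h _ _))

theorem sum_filter_Ico (m t : ℕ) (f : ℕ → ℝ) :
    (∑ j ∈ Finset.range t, if m ≤ j then f j else 0) = ∑ j ∈ Finset.Ico m t, f j := by
  rw [← Finset.sum_filter]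
  congr 1
  ext j
  simp only [Finset.mem_filter, Finset.mem_range, Finset.mem_Ico]
  exact and_comm

theorem Wn_real (t m : ℕ) : (Wn (ii e κ) t m : ℝ) * (1 / 2) ^ ii e κ (t - 1) =
    ∑ j ∈ Finset.Ico m t, wt e κ j := by
  rw [← sum_filter_Ico]
  unfold Wn
  rw [Nat.cast_sum, Finset.sum_mul]
  refine Finset.sum_congr rfl fun j hj => ?_
  split_ifs with h
  · have h1 : ii e κ j ≤ ii e κ (t - 1) := ii_mono e κ (by have := Finset.mem_range.1 hj; omega)
    obtain ⟨d, hd⟩ := Nat.exists_eq_add_of_le h1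
    have h2 : ii e κ (t - 1) - ii e κ j = d := by omega
    rw [h2, hd]
    unfold wt
    push_cast
    rw [pow_add]
    have : (2 : ℝ) ^ d * (1 / 2) ^ d = 1 := by rw [← mul_pow]; norm_num
    calc (2 : ℝ) ^ d * ((1 / 2) ^ ii e κ j * (1 / 2) ^ d) =
        (1 / 2) ^ ii e κ j * (2 ^ d * (1 / 2) ^ d) := by ring
      _ = _ := by rw [this, mul_one]
  · simp

theorem Sn_real (t : ℕ) (x : List Bool) (m : ℕ) :
    (Sn e κ (ii e κ) t x m : ℝ) * (1 / 2) ^ ii e κ (t - 1) =
    ∑ j ∈ Finset.Ico m t, wt e κ j * sc e κ t j (x.take j) := by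
  rw [← sum_filter_Ico]
  unfold Sn
  rw [Nat.cast_sum, Finset.sum_mul]
  refine Finset.sum_congr rfl fun j hj => ?_
  split_ifs with h
  · have h1 : ii e κ j ≤ ii e κ (t - 1) := ii_mono e κ (by have := Finset.mem_range.1 hj; omega)
    obtain ⟨d, hd⟩ := Nat.exists_eq_add_of_le h1
    have h2 : ii e κ (t - 1) - ii e κ j = d := by omega
    rw [h2, hd]
    unfold wt sc
    push_cast
    rw [pow_add]
    have : (2 : ℝ) ^ d * (1 / 2) ^ d = 1 := by rw [← mul_pow]; norm_num
    generalize (2 : ℝ) ^ (dfc e t (κ * ii e κ j) (x.take j) / 2) = S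
    calc (2 : ℝ) ^ d * S * ((1 / 2) ^ ii e κ j * (1 / 2) ^ d) =
        (1 / 2) ^ ii e κ j * S * (2 ^ d * (1 / 2) ^ d) := by ring
      _ = _ := by rw [this, mul_one]
  · simp

theorem inG_iff (k t : ℕ) (x : List Bool) : inG e κ (ii e κ) k t x ↔
    ∃ m < t, 4 ^ k * ∑ j ∈ Finset.Ico m t, wt e κ j <
      ∑ j ∈ Finset.Ico m t, wt e κ j * sc e κ t j (x.take j) := by
  unfold inG
  have hpos : (0 : ℝ) < (1 / 2) ^ ii e κ (t - 1) := by positivity
  have key : ∀ m, 4 ^ k * Wn (ii e κ) t m < Sn e κ (ii e κ) t x m ↔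
      4 ^ k * ∑ j ∈ Finset.Ico m t, wt e κ j <
      ∑ j ∈ Finset.Ico m t, wt e κ j * sc e κ t j (x.take j) := by
    intro m
    rw [← Wn_real, ← Sn_real, ← mul_assoc, mul_lt_mul_iff_left₀ hpos]
    rw [← Nat.cast_lt (α := ℝ)]
    push_cast
    rfl
  constructor
  · rintro ⟨m, hm, h⟩
    exact ⟨m, List.mem_range.1 hm, (key m).1 h⟩
  · rintro ⟨m, hm, h⟩
    exact ⟨m, List.mem_range.2 hm, (key m).2 h⟩

/-! ### The Lindley recursion -/

section Lindley

variable (w a : ℕ → ℝ) (c : ℝ)

/-- The recursion. -/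
noncomputable def RR : ℕ → ℝ
  | 0 => 0
  | t + 1 => max 0 (RR t + w t * (a t - c))

variable {w a c}

theorem RR_nonneg (t : ℕ) : 0 ≤ RR w a c t := by
  cases t with
  | zero => exact le_refl _
  | succ t => exact le_max_left _ _

theorem RR_ge {m t : ℕ} (h : m ≤ t) : ∑ j ∈ Finset.Ico m t, w j * (a j - c) ≤ RR w a c t := by
  induction t, h using Nat.le_induction with
  | base => rw [Finset.Ico_self, Finset.sum_empty]; exact RR_nonneg _
  | succ t h ih =>
    rw [Finset.sum_Ico_succ_top h]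
    exact le_trans (by linarith) (le_max_right _ _)

open Classical in
theorem RR_step (hw : ∀ t, 0 ≤ w t) (ha : ∀ t, 0 ≤ a t) (t : ℕ) :
    c * w t * (if 0 < RR w a c (t + 1) then 1 else 0) ≤
      w t * a t - (RR w a c (t + 1) - RR w a c t) := by
  have h0 := mul_nonneg (hw t) (ha t)
  split_ifs with h
  · have h1 : RR w a c (t + 1) = RR w a c t + w t * (a t - c) := by
      have h2 : 0 < max 0 (RR w a c t + w t * (a t - c)) := h
      rcases lt_max_iff.1 h2 with h3 | h3
      · exact absurd h3 (lt_irrefl _)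
      · exact max_eq_right h3.le
    rw [h1]
    linarith
  · have h1 : RR w a c (t + 1) = 0 := le_antisymm (not_lt.1 h) (RR_nonneg _)
    rw [h1]
    have := RR_nonneg (w := w) (a := a) (c := c) t
    linarith

open Classical in
theorem RR_sum (hw : ∀ t, 0 ≤ w t) (ha : ∀ t, 0 ≤ a t) (T : ℕ) :
    ∑ t ∈ Finset.range T, c * w t * (if 0 < RR w a c (t + 1) then 1 else 0) ≤
      ∑ t ∈ Finset.range T, w t * a t := by
  refine (Finset.sum_le_sum fun t _ => RR_step hw ha t).trans ?_
  rw [Finset.sum_sub_distrib, Finset.sum_range_sub]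
  have h1 := RR_nonneg (w := w) (a := a) (c := c) T
  have h2 : RR w a c 0 = 0 := rfl
  linarith

end Lindley

/-- The stage `t` is bad for `k`. -/
def kbad (e : ℕ → Option (List Bool × List Bool)) (κ k t : ℕ) : Prop :=
  2 ^ (t + 5) < (Gl e κ (ii e κ) k t).length * 2 ^ k

open Classical in
theorem kbad_sum (hc : Cost e κ) (k T : ℕ) :
    (∑ t ∈ Finset.range T, if kbad e κ k (t + 1) then wt e κ t else 0) ≤
      (4 * ∑ j ∈ Finset.range T, wt e κ j + 1) * (1 / 2) ^ (k + 5) := by
  let a : List Bool → ℕ → ℝ := fun X t => sc e κ T t (X.take t)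
  -- the sum over all strings of length `T`
  have h1 : ∑ X ∈ strsF T, ∑ t ∈ Finset.range T, (4 : ℝ) ^ k * wt e κ t *
      (if 0 < RR (wt e κ) (a X) (4 ^ k) (t + 1) then 1 else 0) ≤
      2 ^ T * (4 * ∑ j ∈ Finset.range T, wt e κ j + 1) := by
    refine (Finset.sum_le_sum fun X _ => RR_sum (fun t => (wt_pos t).le)
      (fun t => (sc_pos _ _ _).le) T).trans ?_
    rw [Finset.sum_comm]
    have h2 : ∀ t ∈ Finset.range T, ∑ X ∈ strsF T, wt e κ t * a X t =
        2 ^ T * (wt e κ t * ((1 / 2) ^ t * ∑ x ∈ strsF t, sc e κ T t x)) := by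
      intro t ht
      have ht' : t ≤ T := (Finset.mem_range.1 ht).le
      rw [← Finset.mul_sum, sum_take ht' (fun x => sc e κ T t x)]
      obtain ⟨d, rfl⟩ := Nat.exists_eq_add_of_le ht'
      rw [Nat.add_sub_cancel_left, pow_add]
      have : (2 : ℝ) ^ t * (1 / 2) ^ t = 1 := by rw [← mul_pow]; norm_num
      generalize ∑ x ∈ strsF t, sc e κ (t + d) t x = S
      calc wt e κ t * (2 ^ d * S) = wt e κ t * (2 ^ d * S) * (2 ^ t * (1 / 2) ^ t) := by
            rw [this, mul_one]
        _ = _ := by ring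
    rw [Finset.sum_congr rfl h2, ← Finset.mul_sum]
    exact mul_le_mul_of_nonneg_left (hc T) (by positivity)
  -- membership in `G` implies positivity
  have h3 : ∀ t ∈ Finset.range T, ∀ X ∈ strsF T,
      (if X.take (t + 1) ∈ Gl e κ (ii e κ) k (t + 1) then (1 : ℝ) else 0) ≤
      (if 0 < RR (wt e κ) (a X) (4 ^ k) (t + 1) then 1 else 0) := by
    intro t ht X hX
    by_cases hG : X.take (t + 1) ∈ Gl e κ (ii e κ) k (t + 1)
    · rw [if_pos hG]
      have h4 : inG e κ (ii e κ) k (t + 1) (X.take (t + 1)) := by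
        unfold Gl at hG
        rw [List.mem_filter] at hG
        exact of_decide_eq_true hG.2
      obtain ⟨m, hm, h5⟩ := (inG_iff k (t + 1) _).1 h4
      have h6 : 0 < RR (wt e κ) (a X) (4 ^ k) (t + 1) := by
        refine lt_of_lt_of_le ?_ (RR_ge (Nat.lt_succ_iff.1 hm |>.trans (Nat.le_succ t)))
        have h7 : ∑ j ∈ Finset.Ico m (t + 1), wt e κ j * sc e κ (t + 1) j
            ((X.take (t + 1)).take j) ≤ ∑ j ∈ Finset.Ico m (t + 1), wt e κ j * a X j := by
          refine Finset.sum_le_sum fun j hj => mul_le_mul_of_nonneg_left ?_ (wt_pos j).le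
          have hj' := (Finset.mem_Ico.1 hj).2
          rw [List.take_take, min_eq_left hj'.le]
          exact sc_mono (Nat.succ_le_of_lt (Finset.mem_range.1 ht)) _ _
        have h8 : ∑ j ∈ Finset.Ico m (t + 1), wt e κ j * (a X j - 4 ^ k) =
            ∑ j ∈ Finset.Ico m (t + 1), wt e κ j * a X j -
            4 ^ k * ∑ j ∈ Finset.Ico m (t + 1), wt e κ j := by
          rw [Finset.mul_sum, ← Finset.sum_sub_distrib]
          exact Finset.sum_congr rfl fun j _ => by ring
        rw [h8]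
        linarith
      rw [if_pos h6]
    · rw [if_neg hG]
      split_ifs <;> norm_num
  -- the number of strings with a prefix in `G`
  have h9 : ∀ t ∈ Finset.range T, ∑ X ∈ strsF T,
      (if X.take (t + 1) ∈ Gl e κ (ii e κ) k (t + 1) then (1 : ℝ) else 0) =
      2 ^ (T - (t + 1)) * (Gl e κ (ii e κ) k (t + 1)).length := by
    intro t ht
    rw [sum_take (Nat.succ_le_of_lt (Finset.mem_range.1 ht)) (fun x =>
      if x ∈ Gl e κ (ii e κ) k (t + 1) then (1 : ℝ) else 0)]
    congr 1
    have h10 : (Gl e κ (ii e κ) k (t + 1)).length =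
        ((strsF (t + 1)).filter fun x => x ∈ Gl e κ (ii e κ) k (t + 1)).card := by
      have hnd : (Gl e κ (ii e κ) k (t + 1)).Nodup := (nodup_strsL (t + 1)).filter _
      rw [← List.toFinset_card_of_nodup hnd]
      congr 1
      ext x
      rw [List.mem_toFinset, Finset.mem_filter]
      refine ⟨fun h => ⟨?_, h⟩, fun h => h.2⟩
      exact mem_strsF.2 (mem_strsL.1 (List.mem_filter.1 h).1)
    rw [h10, Finset.card_filter]
    push_cast
    rfl
  have h11 : ∑ t ∈ Finset.range T, (2 : ℝ) ^ T * 2 ^ (k + 5) *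
      (if kbad e κ k (t + 1) then wt e κ t else 0) ≤
      ∑ X ∈ strsF T, ∑ t ∈ Finset.range T, (4 : ℝ) ^ k * wt e κ t *
      (if 0 < RR (wt e κ) (a X) (4 ^ k) (t + 1) then 1 else 0) := by
    rw [Finset.sum_comm]
    refine Finset.sum_le_sum fun t ht => ?_
    have h12 : (4 : ℝ) ^ k * wt e κ t * (2 ^ (T - (t + 1)) *
        (Gl e κ (ii e κ) k (t + 1)).length) ≤ ∑ X ∈ strsF T, (4 : ℝ) ^ k * wt e κ t *
        (if 0 < RR (wt e κ) (a X) (4 ^ k) (t + 1) then 1 else 0) := by
      rw [← Finset.mul_sum, ← h9 t ht]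
      exact mul_le_mul_of_nonneg_left (Finset.sum_le_sum (h3 t ht))
        (mul_nonneg (by positivity) (wt_pos t).le)
    refine le_trans ?_ h12
    split_ifs with hb
    · have h13 : (2 : ℝ) ^ (t + 1 + 5) ≤ (Gl e κ (ii e κ) k (t + 1)).length * 2 ^ k := by
        exact_mod_cast (le_of_lt hb)
      have h14 : (2 : ℝ) ^ T * 2 ^ (k + 5) * wt e κ t =
          2 ^ k * wt e κ t * 2 ^ (T - (t + 1)) * 2 ^ (t + 1 + 5) := by
        obtain ⟨d, hd⟩ := Nat.exists_eq_add_of_le (Nat.succ_le_of_lt (Finset.mem_range.1 ht))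
        rw [hd]
        have : t.succ + d - (t + 1) = d := by omega
        rw [this]
        rw [Nat.succ_eq_add_one]
        ring
      rw [h14]
      have h15 : (4 : ℝ) ^ k * wt e κ t * (2 ^ (T - (t + 1)) *
          (Gl e κ (ii e κ) k (t + 1)).length) = 2 ^ k * wt e κ t * 2 ^ (T - (t + 1)) *
          ((Gl e κ (ii e κ) k (t + 1)).length * 2 ^ k) := by
        have : (4 : ℝ) ^ k = 2 ^ k * 2 ^ k := by rw [← mul_pow]; norm_num
        rw [this]
        ring
      rw [h15]
      have := wt_pos (e := e) (κ := κ) t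
      exact mul_le_mul_of_nonneg_left h13 (by positivity)
    · rw [mul_zero]
      have := wt_pos (e := e) (κ := κ) t
      positivity
  have h16 := h11.trans h1
  rw [← Finset.mul_sum] at h16
  have h17 : (2 : ℝ) ^ (k + 5) * (∑ t ∈ Finset.range T,
      if kbad e κ k (t + 1) then wt e κ t else 0) ≤
      4 * ∑ j ∈ Finset.range T, wt e κ j + 1 := by
    have hp : (0 : ℝ) < 2 ^ T := by positivity
    refine le_of_mul_le_mul_left ?_ hp
    rw [← mul_assoc]
    exact h16
  have h18 : (2 : ℝ) ^ (k + 5) * (1 / 2) ^ (k + 5) = 1 := by rw [← mul_pow]; norm_num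
  calc (∑ t ∈ Finset.range T, if kbad e κ k (t + 1) then wt e κ t else 0) =
      ((2 : ℝ) ^ (k + 5) * (∑ t ∈ Finset.range T,
      if kbad e κ k (t + 1) then wt e κ t else 0)) * (1 / 2) ^ (k + 5) := by
        rw [mul_comm ((2 : ℝ) ^ (k + 5)), mul_assoc, h18, mul_one]
    _ ≤ _ := mul_le_mul_of_nonneg_right h17 (by positivity)

theorem sum_half (K : ℕ) : ∑ k ∈ Finset.range K, (1 / 2 : ℝ) ^ (k + 5) ≤ 1 / 16 := by
  have h : ∑ k ∈ Finset.range K, (1 / 2 : ℝ) ^ (k + 5) = 1 / 16 - (1 / 2) ^ (K + 4) := by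
    induction K with
    | zero => norm_num
    | succ K ih =>
      rw [Finset.sum_range_succ, ih]
      ring
  rw [h]
  have : (0 : ℝ) ≤ (1 / 2) ^ (K + 4) := by positivity
  linarith

open Classical in
theorem bad_sum (hc : Cost e κ) (T : ℕ) :
    (∑ t ∈ Finset.range T, if good e κ (ii e κ) (t + 1) then 0 else wt e κ t) ≤
      (4 * ∑ j ∈ Finset.range T, wt e κ j + 1) * (1 / 16) := by
  set K := T + ii e κ T + 2 with hK
  have h1 : ∀ t ∈ Finset.range T, (if good e κ (ii e κ) (t + 1) then 0 else wt e κ t) ≤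
      ∑ k ∈ Finset.range K, if kbad e κ k (t + 1) then wt e κ t else 0 := by
    intro t ht
    have hnn : ∀ k ∈ Finset.range K, 0 ≤ (if kbad e κ k (t + 1) then wt e κ t else 0) := by
      intro k _
      split_ifs
      · exact (wt_pos t).le
      · exact le_refl _
    by_cases hg : good e κ (ii e κ) (t + 1)
    · rw [if_pos hg]
      exact Finset.sum_nonneg hnn
    · rw [if_neg hg]
      unfold good at hg
      push Not at hg
      obtain ⟨k, hk, hb⟩ := hg
      have hkK : k ∈ Finset.range K := by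
        have h2 := List.mem_range.1 hk
        have ht' := Finset.mem_range.1 ht
        have h3 : ii e κ (t + 1 - 1) ≤ ii e κ T := ii_mono e κ (by omega)
        rw [Finset.mem_range]
        omega
      refine le_trans (le_of_eq ?_) (Finset.single_le_sum hnn hkK)
      exact (if_pos (show kbad e κ k (t + 1) from hb)).symm
  refine (Finset.sum_le_sum h1).trans ?_
  rw [Finset.sum_comm]
  refine (Finset.sum_le_sum fun k _ => kbad_sum hc k T).trans ?_
  rw [← Finset.mul_sum]
  refine mul_le_mul_of_nonneg_left (sum_half K) ?_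
  have : 0 ≤ ∑ j ∈ Finset.range T, wt e κ j := Finset.sum_nonneg fun j _ => (wt_pos j).le
  linarith

theorem wt_zero : wt e κ 0 = 1 / 8 := by
  unfold wt
  rw [ii_zero]
  norm_num

open Classical in
theorem wt_succ (t : ℕ) : wt e κ (t + 1) = wt e κ t / 2 +
    (if good e κ (ii e κ) (t + 1) then 0 else wt e κ t) / 2 := by
  unfold wt
  rw [ii_succ]
  by_cases h : good e κ (ii e κ) (t + 1)
  · rw [if_pos h, if_pos h, pow_succ]
    ring
  · rw [if_neg h, if_neg h, add_zero]
    ring

theorem wt_sum_le (hc : Cost e κ) (T : ℕ) : ∑ j ∈ Finset.range T, wt e κ j ≤ 5 / 12 := by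
  classical
  have h1 : ∑ j ∈ Finset.range (T + 1), wt e κ j ≤ 5 / 12 := by
    have h2 : ∑ j ∈ Finset.range (T + 1), wt e κ j = 1 / 8 +
        (∑ j ∈ Finset.range T, wt e κ j) / 2 +
        (∑ t ∈ Finset.range T, if good e κ (ii e κ) (t + 1) then 0 else wt e κ t) / 2 := by
      rw [Finset.sum_range_succ', wt_zero, Finset.sum_congr rfl fun t _ => wt_succ t,
        Finset.sum_add_distrib, Finset.sum_div, Finset.sum_div]
      ring
    have h3 := bad_sum hc T
    have h4 : ∑ j ∈ Finset.range T, wt e κ j ≤ ∑ j ∈ Finset.range (T + 1), wt e κ j := by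
      rw [Finset.sum_range_succ]
      have := wt_pos (e := e) (κ := κ) T
      linarith
    linarith
  refine le_trans ?_ h1
  rw [Finset.sum_range_succ]
  have := wt_pos (e := e) (κ := κ) T
  linarith

theorem summable_wt (hc : Cost e κ) : Summable (wt e κ) :=
  summable_of_sum_range_le (fun j => (wt_pos j).le) (wt_sum_le hc)

/-- There are infinitely many good stages. -/
theorem exists_good (hc : Cost e κ) (N : ℕ) : ∃ t, N < t ∧ good e κ (ii e κ) t := by
  by_contra hcon
  push Not at hcon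
  have h1 : ∀ t, ii e κ (N + t) = ii e κ N := by
    intro t
    induction t with
    | zero => rfl
    | succ t ih =>
      rw [← Nat.add_assoc, ii_succ, ih]
      rw [if_neg (hcon (N + t + 1) (by omega)), Nat.add_zero]
  have h2 := (summable_wt hc).tendsto_atTop_zero
  have h3 : Filter.Tendsto (fun t => wt e κ (N + t)) Filter.atTop (nhds 0) :=
    h2.comp (Filter.tendsto_atTop_mono (fun t => Nat.le_add_left t N) Filter.tendsto_id)
  have h4 : (fun t => wt e κ (N + t)) = fun _ => wt e κ N := by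
    funext t
    unfold wt
    rw [h1]
  rw [h4] at h3
  have h5 := tendsto_nhds_unique h3 tendsto_const_nhds
  exact absurd h5.symm (wt_pos N).ne'

/-- At a good stage all the sets `G_k` are small. -/
theorem good_card (hκ : κ ≤ 1) {t : ℕ} (hg : good e κ (ii e κ) t) (k : ℕ) :
    (Gl e κ (ii e κ) k t).length * 2 ^ k ≤ 2 ^ (t + 5) := by
  by_cases hk : k < t + ii e κ (t - 1) + 1
  · exact hg k (List.mem_range.2 hk)
  · have h1 : Gl e κ (ii e κ) k t = [] := by
      unfold Gl
      rw [List.filter_eq_nil_iff]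
      intro x hx hG
      obtain ⟨m, hm, h2⟩ := (inG_iff k t x).1 (of_decide_eq_true hG)
      have hxl := mem_strsL.1 hx
      have h3 : ∑ j ∈ Finset.Ico m t, wt e κ j * sc e κ t j (x.take j) ≤
          4 ^ k * ∑ j ∈ Finset.Ico m t, wt e κ j := by
        rw [Finset.mul_sum]
        refine Finset.sum_le_sum fun j hj => ?_
        rw [mul_comm ((4 : ℝ) ^ k)]
        refine mul_le_mul_of_nonneg_left ?_ (wt_pos j).le
        unfold sc
        have h4 : (4 : ℝ) ^ k = 2 ^ (2 * k) := by rw [pow_mul]; norm_num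
        rw [h4]
        refine pow_le_pow_right₀ (by norm_num) ?_
        have h5 := dfc_le (e := e) t (κ * ii e κ j) (x.take j)
        have h6 : (x.take j).length ≤ t := by rw [List.length_take, hxl]; exact min_le_right _ _
        have h7 : ii e κ j ≤ ii e κ (t - 1) :=
          ii_mono e κ (by have := (Finset.mem_Ico.1 hj).2; omega)
        have h8 : κ * ii e κ j ≤ 1 * ii e κ j := Nat.mul_le_mul_right _ hκ
        omega
      linarith
    rw [h1]
    simp

end Q217.CR
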