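import Pool.Agent.Q217.CR.Ana
import Pool.Agent.Q217.KT.Defs

set_option autoImplicit false

/-! The cost hypothesis for plain and prefix-free machines. -/

namespace Q217.CR

open Pool.Agent.Helper444.CKGame (card_short kraft)
open Q217.KT

variable {e : ℕ → Option (List Bool × List Bool)}

/-- The deficiency is witnessed by an item. -/
theorem dfc_spec {t i0 : ℕ} {x : List Bool} (h : 0 < dfc e t i0 x) :
    ∃ i q, e i = some (q, x) ∧ dfc e t i0 x = x.length + i0 - q.length := by
  have hne : (Finset.range t).Nonempty := by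
    rw [Finset.nonempty_iff_ne_empty]
    intro h0
    unfold dfc at h
    rw [h0] at h
    simp at h
  obtain ⟨i, hi, h1⟩ := Finset.exists_mem_eq_sup (Finset.range t) hne (dterm e i0 x)
  have h2 : dfc e t i0 x = dterm e i0 x i := h1
  rw [h2] at h ⊢
  unfold dterm at h ⊢
  cases ho : e i with
  | none =>
    rw [ho] at h
    exact absurd h (lt_irrefl _)
  | some o =>
    rw [ho] at h
    change 0 < (if o.2 = x then x.length + i0 - o.1.length else 0) at h
    by_cases hx : o.2 = x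
    · refine ⟨i, o.1, ?_, if_pos hx⟩
      rw [ho, ← hx]
    · rw [if_neg hx] at h
      exact absurd h (lt_irrefl _)

theorem dfc_ge {t i0 i : ℕ} {q x : List Bool} (hi : i < t) (h : e i = some (q, x)) :
    x.length + i0 ≤ dfc e t i0 x + q.length := by
  have h1 : dterm e i0 x i ≤ dfc e t i0 x := Finset.le_sup (f := dterm e i0 x)
    (Finset.mem_range.2 hi)
  have h2 : dterm e i0 x i = x.length + i0 - q.length := by
    unfold dterm
    rw [h]
    exact if_pos rfl
  omega

open Classical in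
/-- Few strings have a large plain deficiency. -/
theorem card_deficient (he3 : ∀ m n q x y, e m = some (q, x) → e n = some (q, y) → m = n)
    (t j d : ℕ) (hd : 0 < d) :
    ((strsF j).filter fun x => d ≤ dfc e t 0 x).card * 2 ^ d ≤ 2 ^ (j + 1) := by
  by_cases hdj : d ≤ j
  · set S := (strsF j).filter fun x => d ≤ dfc e t 0 x with hS
    have hch : ∀ x ∈ S, ∃ q : List Bool, q.length + d ≤ j ∧ ∃ i, e i = some (q, x) := by
      intro x hx
      obtain ⟨hx1, hx2⟩ := Finset.mem_filter.1 hx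
      obtain ⟨i, q, h1, h2⟩ := dfc_spec (lt_of_lt_of_le hd hx2)
      rw [mem_strsF] at hx1
      exact ⟨q, by omega, i, h1⟩
    choose! q hq hq' using hch
    have hinj : Set.InjOn q S := by
      intro x hx y hy hxy
      obtain ⟨i, hi⟩ := hq' x hx
      obtain ⟨i', hi'⟩ := hq' y hy
      rw [← hxy] at hi'
      have := he3 _ _ _ _ _ hi hi'
      rw [this, hi'] at hi
      exact (congrArg Prod.snd (Option.some_injective _ hi)).symm
    have h1 : S.card < 2 ^ (j - d + 1) := by
      rw [← Finset.card_image_of_injOn hinj]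
      refine card_short _ _ ?_
      intro p hp
      obtain ⟨x, hx, rfl⟩ := Finset.mem_image.1 hp
      have := hq x hx
      omega
    have h2 : 2 ^ (j + 1) = 2 ^ (j - d + 1) * 2 ^ d := by
      rw [← pow_add]
      congr 1
      omega
    rw [h2]
    exact Nat.mul_le_mul_right _ h1.le
  · have h1 : (strsF j).filter (fun x => d ≤ dfc e t 0 x) = ∅ := by
      rw [Finset.filter_eq_empty_iff]
      intro x hx h
      have h2 := dfc_le (e := e) t 0 x
      rw [mem_strsF] at hx
      omega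
    rw [h1, Finset.card_empty, Nat.zero_mul]
    exact Nat.zero_le _

theorem two_pow_eq (p U : ℕ) (h : p ≤ U) : (2 : ℝ) ^ p =
    1 + ∑ u ∈ Finset.range U, if u + 1 ≤ p then (2 : ℝ) ^ u else 0 := by
  have h1 : ∀ U, p ≤ U → (2 : ℝ) ^ p =
    1 + ∑ u ∈ Finset.range U, if u + 1 ≤ p then (2 : ℝ) ^ u else 0 := by
    intro U hU
    induction U, hU using Nat.le_induction with
    | base =>
      have : ∑ u ∈ Finset.range p, (if u + 1 ≤ p then (2 : ℝ) ^ u else 0) =
          ∑ u ∈ Finset.range p, (2 : ℝ) ^ u := by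
        refine Finset.sum_congr rfl fun u hu => if_pos ?_
        exact Nat.succ_le_of_lt (Finset.mem_range.1 hu)
      rw [this, geom_sum_eq (by norm_num)]
      ring
    | succ U hU ih =>
      rw [Finset.sum_range_succ, if_neg (by omega), add_zero]
      exact ih
  exact h1 U h

theorem cost_plain (he3 : ∀ m n q x y, e m = some (q, x) → e n = some (q, y) → m = n) :
    Cost e 0 := by
  classical
  intro T
  have key : ∀ j, (1 / 2 : ℝ) ^ j * ∑ x ∈ strsF j, sc e 0 T j x ≤ 2 := by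
    intro j
    have h1 : ∀ x ∈ strsF j, sc e 0 T j x = 1 + ∑ u ∈ Finset.range j,
        if 2 * (u + 1) ≤ dfc e T 0 x then (2 : ℝ) ^ u else 0 := by
      intro x hx
      unfold sc
      rw [Nat.zero_mul]
      rw [two_pow_eq (dfc e T 0 x / 2) j]
      · congr 1
        refine Finset.sum_congr rfl fun u _ => ?_
        have : u + 1 ≤ dfc e T 0 x / 2 ↔ 2 * (u + 1) ≤ dfc e T 0 x := by omega
        simp only [this]
      · have h2 := dfc_le (e := e) T 0 x
        rw [mem_strsF] at hx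
        omega
    rw [Finset.sum_congr rfl h1, Finset.sum_add_distrib, Finset.sum_const, card_strsF,
      nsmul_eq_mul, mul_one, Finset.sum_comm]
    have h2 : ∀ u ∈ Finset.range j, (∑ x ∈ strsF j,
        if 2 * (u + 1) ≤ dfc e T 0 x then (2 : ℝ) ^ u else 0) ≤ 2 ^ j * (1 / 2) ^ (u + 1) := by
      intro u _
      have h3 := card_deficient he3 T j (2 * (u + 1)) (by omega)
      rw [← Finset.sum_filter, Finset.sum_const, nsmul_eq_mul]
      have h4 : (((strsF j).filter fun x => 2 * (u + 1) ≤ dfc e T 0 x).card : ℝ) *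
          2 ^ (2 * (u + 1)) ≤ 2 ^ (j + 1) := by exact_mod_cast h3
      have h5 : (2 : ℝ) ^ (2 * (u + 1)) * ((1 / 2) ^ (2 * (u + 1))) = 1 := by
        rw [← mul_pow]; norm_num
      generalize (((strsF j).filter fun x => 2 * (u + 1) ≤ dfc e T 0 x).card : ℝ) = S at h4 ⊢
      have h6 : S ≤ 2 ^ (j + 1) * (1 / 2) ^ (2 * (u + 1)) := by
        calc S = S * 2 ^ (2 * (u + 1)) * (1 / 2) ^ (2 * (u + 1)) := by
              rw [mul_assoc, h5, mul_one]
          _ ≤ _ := mul_le_mul_of_nonneg_right h4 (by positivity)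
      calc S * 2 ^ u ≤ 2 ^ (j + 1) * (1 / 2) ^ (2 * (u + 1)) * 2 ^ u :=
            mul_le_mul_of_nonneg_right h6 (by positivity)
        _ = 2 ^ j * (1 / 2) ^ (u + 1) * (2 * 2 ^ u * (1 / 2) ^ (u + 1)) := by ring
        _ = 2 ^ j * (1 / 2) ^ (u + 1) := by
          have : (2 : ℝ) * 2 ^ u * (1 / 2) ^ (u + 1) = 1 := by
            rw [← pow_succ', ← mul_pow]; norm_num
          rw [this, mul_one]
    have h7 : ∑ u ∈ Finset.range j, (1 / 2 : ℝ) ^ (u + 1) ≤ 1 := by
      have h8 : ∀ j : ℕ, ∑ u ∈ Finset.range j, (1 / 2 : ℝ) ^ (u + 1) = 1 - (1 / 2) ^ j := by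
        intro j
        induction j with
        | zero => norm_num
        | succ j ih => rw [Finset.sum_range_succ, ih]; ring
      rw [h8]
      have : (0 : ℝ) ≤ (1 / 2) ^ j := by positivity
      linarith
    have h9 := Finset.sum_le_sum h2
    rw [← Finset.mul_sum] at h9
    have h10 : (2 : ℝ) ^ j * ∑ u ∈ Finset.range j, (1 / 2 : ℝ) ^ (u + 1) ≤ 2 ^ j * 1 :=
      mul_le_mul_of_nonneg_left h7 (by positivity)
    have h11 : (1 / 2 : ℝ) ^ j * 2 ^ j = 1 := by rw [← mul_pow]; norm_num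
    have h12 : (1 / 2 : ℝ) ^ j * (((2 ^ j : ℕ) : ℝ) + ∑ u ∈ Finset.range j, ∑ x ∈ strsF j,
        if 2 * (u + 1) ≤ dfc e T 0 x then (2 : ℝ) ^ u else 0) ≤ (1 / 2 : ℝ) ^ j *
        (2 * 2 ^ j) := by
      refine mul_le_mul_of_nonneg_left ?_ (by positivity)
      push_cast
      linarith
    refine h12.trans (le_of_eq ?_)
    rw [mul_comm (2 : ℝ), ← mul_assoc, h11, one_mul]
  have h0 : 0 ≤ ∑ j ∈ Finset.range T, wt e 0 j := Finset.sum_nonneg fun j _ => (wt_pos j).le
  refine (Finset.sum_le_sum fun j _ => mul_le_mul_of_nonneg_left (key j) (wt_pos j).le).trans ?_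
  rw [← Finset.sum_mul]
  linarith

theorem two_pow_half (D : ℕ) : (2 : ℝ) ^ (D / 2) ≤ (1 + 2 ^ D) / 2 := by
  have h1 : (2 : ℝ) ^ (D / 2) * 2 ^ (D / 2) ≤ 2 ^ D := by
    rw [← pow_add]
    exact pow_le_pow_right₀ (by norm_num) (by omega)
  nlinarith [sq_nonneg ((2 : ℝ) ^ (D / 2) - 1)]

theorem cost_prefix (he3 : ∀ m n q x y, e m = some (q, x) → e n = some (q, y) → m = n)
    (hpf : ∀ m n p q x y, e m = some (p, x) → e n = some (q, y) → p <+: q → p = q) :
    Cost e 1 := by
  classical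
  intro T
  -- the strings with positive deficiency
  let S : ℕ → Finset (List Bool) := fun j => (strsF j).filter fun x =>
    0 < dfc e T (1 * ii e 1 j) x
  have hch : ∀ j, ∀ x ∈ S j, ∃ q : List Bool, (∃ i, e i = some (q, x)) ∧
      dfc e T (1 * ii e 1 j) x = j + ii e 1 j - q.length ∧
        0 < j + ii e 1 j - q.length := by
    intro j x hx
    obtain ⟨hx1, hx2⟩ := Finset.mem_filter.1 hx
    obtain ⟨i, q, h1, h2⟩ := dfc_spec hx2
    rw [mem_strsF] at hx1
    rw [hx1, Nat.one_mul] at h2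
    rw [Nat.one_mul] at hx2 ⊢
    exact ⟨q, ⟨i, h1⟩, h2, by omega⟩
  choose! q hq hq' hq'' using hch
  have key : ∀ j, wt e 1 j * ((1 / 2) ^ j * ∑ x ∈ strsF j, sc e 1 T j x) ≤
      wt e 1 j + 1 / 2 * ∑ x ∈ S j, (1 / 2) ^ (q j x).length := by
    intro j
    have h1 : ∀ x ∈ strsF j, sc e 1 T j x ≤ 1 + 1 / 2 *
        (if x ∈ S j then (2 : ℝ) ^ (j + ii e 1 j) * (1 / 2) ^ (q j x).length else 0) := by
      intro x hx
      unfold sc
      by_cases hS : x ∈ S j
      · rw [if_pos hS, hq' j x hS]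
        have h2 := two_pow_half (j + ii e 1 j - (q j x).length)
        have h3 : (2 : ℝ) ^ (j + ii e 1 j - (q j x).length) =
            (2 : ℝ) ^ (j + ii e 1 j) * (1 / 2) ^ (q j x).length := by
          obtain ⟨d, hd⟩ := Nat.exists_eq_add_of_lt (hq'' j x hS)
          have h4 : j + ii e 1 j = (q j x).length + (0 + d + 1) := by omega
          have h5 : (q j x).length + (0 + d + 1) - (q j x).length = 0 + d + 1 := by omega
          rw [h4, h5, pow_add (2 : ℝ) (q j x).length]
          have h6 : (2 : ℝ) ^ (q j x).length * (1 / 2) ^ (q j x).length = 1 := by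
            rw [← mul_pow]; norm_num
          calc (2 : ℝ) ^ (0 + d + 1) = (2 : ℝ) ^ (0 + d + 1) *
                (2 ^ (q j x).length * (1 / 2) ^ (q j x).length) := by rw [h6, mul_one]
            _ = _ := by ring
        rw [h3] at h2
        linarith
      · rw [if_neg hS]
        have h2 : dfc e T (1 * ii e 1 j) x = 0 := by
          by_contra hcon
          exact hS (Finset.mem_filter.2 ⟨hx, Nat.pos_of_ne_zero hcon⟩)
        rw [h2]
        norm_num
    have h2 := Finset.sum_le_sum h1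
    rw [Finset.sum_add_distrib, Finset.sum_const, card_strsF, nsmul_eq_mul, mul_one,
      ← Finset.mul_sum, ← Finset.sum_filter] at h2
    have h3 : (strsF j).filter (fun x => x ∈ S j) = S j := by
      ext x
      rw [Finset.mem_filter]
      exact ⟨fun h => h.2, fun h => ⟨(Finset.mem_filter.1 h).1, h⟩⟩
    rw [h3, ← Finset.mul_sum] at h2
    have h4 : (2 : ℝ) ^ j * (1 / 2) ^ j = 1 := by rw [← mul_pow]; norm_num
    have h5 : (2 : ℝ) ^ ii e 1 j * (1 / 2) ^ ii e 1 j = 1 := by rw [← mul_pow]; norm_num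
    have h6 : (0 : ℝ) ≤ wt e 1 j * (1 / 2) ^ j := by
      have := wt_pos (e := e) (κ := 1) j
      positivity
    have h7 := mul_le_mul_of_nonneg_left h2 h6
    rw [← mul_assoc]
    refine h7.trans (le_of_eq ?_)
    generalize ∑ x ∈ S j, (1 / 2 : ℝ) ^ (q j x).length = A
    unfold wt
    push_cast
    rw [pow_add]
    calc (1 / 2 : ℝ) ^ ii e 1 j * (1 / 2) ^ j *
        (2 ^ j + 1 / 2 * (2 ^ j * 2 ^ ii e 1 j * A)) =
        (1 / 2 : ℝ) ^ ii e 1 j * (2 ^ j * (1 / 2) ^ j) + 1 / 2 * A * (2 ^ j * (1 / 2) ^ j) *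
        (2 ^ ii e 1 j * (1 / 2) ^ ii e 1 j) := by ring
      _ = _ := by rw [h4, h5]; ring
  have h0 : 0 ≤ ∑ j ∈ Finset.range T, wt e 1 j := Finset.sum_nonneg fun j _ => (wt_pos j).le
  refine (Finset.sum_le_sum fun j _ => key j).trans ?_
  rw [Finset.sum_add_distrib, ← Finset.mul_sum]
  have hkraft : ∑ j ∈ Finset.range T, ∑ x ∈ S j, (1 / 2 : ℝ) ^ (q j x).length ≤ 1 := by
    rw [Finset.sum_sigma']
    set P := (Finset.range T).sigma S with hP
    have hinj : Set.InjOn (fun z : (_ : ℕ) × List Bool => q z.1 z.2) P := by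
      intro z hz z' hz' hzz
      obtain ⟨i, hi⟩ := hq z.1 z.2 (Finset.mem_sigma.1 hz).2
      obtain ⟨i', hi'⟩ := hq z'.1 z'.2 (Finset.mem_sigma.1 hz').2
      have hzz' : q z.1 z.2 = q z'.1 z'.2 := hzz
      rw [← hzz'] at hi'
      have h1 := he3 _ _ _ _ _ hi hi'
      rw [h1, hi'] at hi
      have h2 : z'.2 = z.2 := congrArg Prod.snd (Option.some_injective _ hi)
      have h3 := mem_strsF.1 (Finset.mem_filter.1 (Finset.mem_sigma.1 hz).2).1
      have h4 := mem_strsF.1 (Finset.mem_filter.1 (Finset.mem_sigma.1 hz').2).1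
      obtain ⟨j, x⟩ := z
      obtain ⟨j', x'⟩ := z'
      simp only at h2 h3 h4
      subst h2
      rw [h3] at h4
      subst h4
      rfl
    have h1 : ∑ z ∈ P, (1 / 2 : ℝ) ^ (q z.1 z.2).length =
        ∑ p ∈ P.image (fun z : (_ : ℕ) × List Bool => q z.1 z.2), (1 / 2 : ℝ) ^ p.length := by
      rw [Finset.sum_image hinj]
    rw [h1]
    refine kraft _ ?_
    intro p hp p' hp' hpp
    obtain ⟨z, hz, rfl⟩ := Finset.mem_image.1 hp
    obtain ⟨z', hz', rfl⟩ := Finset.mem_image.1 hp'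
    obtain ⟨i, hi⟩ := hq z.1 z.2 (Finset.mem_sigma.1 hz).2
    obtain ⟨i', hi'⟩ := hq z'.1 z'.2 (Finset.mem_sigma.1 hz').2
    exact hpf _ _ _ _ _ _ hi hi' hpp
  linarith

end Q217.CR
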