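import Pool.Agent.Q217.CR.Ana
import Pool.Agent.Q217.KT.Mach

set_option autoImplicit false

/-! The decoder: strings with a prefix in `G_k` are compressible. -/

namespace Q217.CR

open Pool.Agent.Helper444.CKGame (num num_cons num_append num_lt num_inj exists_num)
open Q217.KT
open Q217.CO (primrec_num)

variable (e : ℕ → Option (List Bool × List Bool)) (κ : ℕ)

/-- Goodness read off the history. -/
def goodP (t : ℕ) : Prop := good e κ (fun j => (hist e κ t).getD j 0) t

instance (t : ℕ) : Decidable (goodP e κ t) := by unfold goodP; infer_instance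

/-- The last good stage up to `n`. -/
def lastGood (n : ℕ) : ℕ := Nat.findGreatest (goodP e κ) n

/-- The decoder for the parameter `k`. -/
def outK (k : ℕ) (r : List Bool) : Option (List Bool) :=
  ((Gl e κ (fun j => (hist e κ (lastGood e κ (r.length + k - 5))).getD j 0) k
    (lastGood e κ (r.length + k - 5)))[num (r.take (lastGood e κ (r.length + k - 5) + 5 - k))]?).map
    fun y => y ++ r.drop (lastGood e κ (r.length + k - 5) + 5 - k)

/-- The decoder. -/
def outD (w : List Bool) : Option (List Bool) :=
  outK e κ (2 * w.idxOf false + (if (w.drop (w.idxOf false + 1)).head? = some true then 1 else 0))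
    (w.drop (w.idxOf false + 2))

variable {e κ}

theorem goodP_iff {t : ℕ} (ht : 0 < t) : goodP e κ t ↔ good e κ (ii e κ) t :=
  good_congr ht fun _ hj => hist_getD e κ hj.le

theorem Gl_hist (k t : ℕ) : Gl e κ (fun j => (hist e κ t).getD j 0) k t =
    Gl e κ (ii e κ) k t := Gl_congr (fun _ hj => hist_getD e κ hj.le) k

theorem lastGood_le (n : ℕ) : lastGood e κ n ≤ n := Nat.findGreatest_le n

theorem lastGood_good {n : ℕ} (h : 0 < lastGood e κ n) : good e κ (ii e κ) (lastGood e κ n) :=
  (goodP_iff h).1 (Nat.findGreatest_of_ne_zero rfl h.ne')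

theorem lastGood_ge {t n : ℕ} (ht : 0 < t) (hg : good e κ (ii e κ) t) (htn : t ≤ n) :
    t ≤ lastGood e κ n := Nat.le_findGreatest htn ((goodP_iff ht).2 hg)

theorem lastGood_tendsto (hc : Cost e κ) :
    Filter.Tendsto (lastGood e κ) Filter.atTop Filter.atTop := by
  rw [Filter.tendsto_atTop_atTop]
  intro N
  obtain ⟨t, ht, hg⟩ := exists_good hc N
  exact ⟨t, fun n hn => ht.le.trans (lastGood_ge (by omega) hg hn)⟩

section Prim

theorem primrec_goodP (he : Primrec e) : PrimrecPred (goodP e κ) :=
  (primrec_good he).comp (Primrec.pair (primrec_hist he) Primrec.id)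

theorem primrec_lastGood (he : Primrec e) : Primrec (lastGood e κ) :=
  Primrec.nat_findGreatest (f := fun n : ℕ => n) (p := fun _ t => goodP e κ t) Primrec.id
    ((primrec_goodP he).comp Primrec.snd)

theorem primrec_outK (he : Primrec e) : Primrec₂ (outK e κ) := by
  let β : Type := ℕ × List Bool
  have k : Primrec fun z : β => z.1 := Primrec.fst
  have r : Primrec fun z : β => z.2 := Primrec.snd
  have t : Primrec fun z : β => lastGood e κ (z.2.length + z.1 - 5) :=
    (primrec_lastGood he).comp (Primrec.nat_sub.comp (Primrec.nat_add.comp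
      (Primrec.list_length.comp r) k) (Primrec.const 5))
  have h : Primrec fun z : β => hist e κ (lastGood e κ (z.2.length + z.1 - 5)) :=
    (primrec_hist he).comp t
  have l : Primrec fun z : β => lastGood e κ (z.2.length + z.1 - 5) + 5 - z.1 :=
    Primrec.nat_sub.comp (Primrec.nat_add.comp t (Primrec.const 5)) k
  have g : Primrec fun z : β =>
      Gl e κ (fun j => (hist e κ (lastGood e κ (z.2.length + z.1 - 5))).getD j 0) z.1
        (lastGood e κ (z.2.length + z.1 - 5)) :=
    (primrec_Gl he).comp (Primrec.pair h (Primrec.pair k t))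
  have i : Primrec fun z : β =>
      num (z.2.take (lastGood e κ (z.2.length + z.1 - 5) + 5 - z.1)) :=
    primrec_num.comp (Primrec.list_take.comp l r)
  have o := Primrec.list_getElem?.comp g i
  have s : Primrec₂ fun (z : β) (y : List Bool) =>
      y ++ z.2.drop (lastGood e κ (z.2.length + z.1 - 5) + 5 - z.1) :=
    (Primrec.list_append.comp Primrec.snd (Primrec.list_drop.comp (l.comp Primrec.fst)
      (r.comp Primrec.fst))).to₂
  exact (Primrec.option_map o s).to₂

theorem primrec_outD (he : Primrec e) : Primrec (outD e κ) := by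
  have i : Primrec fun w : List Bool => w.idxOf false :=
    Primrec.list_idxOf.comp (Primrec.const false) Primrec.id
  have b : Primrec fun w : List Bool =>
      if (w.drop (w.idxOf false + 1)).head? = some true then 1 else 0 :=
    Primrec.ite (Primrec.eq.comp (Primrec.list_head?.comp (Primrec.list_drop.comp
      (Primrec.succ.comp i) Primrec.id)) (Primrec.const (some true))) (Primrec.const 1)
      (Primrec.const 0)
  exact (primrec_outK he).comp (Primrec.nat_add.comp (Primrec.nat_mul.comp (Primrec.const 2) i)
    b) (Primrec.list_drop.comp (Primrec.nat_add.comp i (Primrec.const 2)) Primrec.id)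

end Prim

theorem outK_spec {k n : ℕ} {x : List Bool} (hκ : κ ≤ 1) (hx : x.length = n)
    (hG : x.take (lastGood e κ n) ∈ Gl e κ (ii e κ) k (lastGood e κ n)) :
    ∃ r : List Bool, r.length + k = n + 5 ∧ outK e κ k r = some x := by
  set t := lastGood e κ n with ht
  have htn : t ≤ n := lastGood_le n
  have htpos : 0 < t := by
    have h1 : inG e κ (ii e κ) k t (x.take t) := of_decide_eq_true (List.mem_filter.1 hG).2
    obtain ⟨m, hm, -⟩ := h1
    have := List.mem_range.1 hm
    omega
  have hcard := good_card hκ (lastGood_good htpos) k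
  rw [← ht] at hcard
  obtain ⟨i, hi, hxi⟩ := List.getElem_of_mem hG
  have hk : k ≤ t + 5 := by
    by_contra hcon
    have h1 : 2 ^ (t + 5) < 2 ^ k := Nat.pow_lt_pow_right (by norm_num) (by omega)
    have h2 : 1 * 2 ^ k ≤ (Gl e κ (ii e κ) k t).length * 2 ^ k :=
      Nat.mul_le_mul_right _ (by omega)
    omega
  have hi2 : i < 2 ^ (t + 5 - k) := by
    have h1 : 2 ^ (t + 5) = 2 ^ (t + 5 - k) * 2 ^ k := by
      rw [← pow_add]
      congr 1
      omega
    rw [h1] at hcard
    exact lt_of_lt_of_le hi (Nat.le_of_mul_le_mul_right hcard (by positivity))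
  obtain ⟨u, hu, hnum⟩ := exists_num hi2
  have hl : (u ++ x.drop t).length + k - 5 = n := by
    rw [List.length_append, hu, List.length_drop, hx]
    omega
  refine ⟨u ++ x.drop t, ?_, ?_⟩
  · rw [List.length_append, hu, List.length_drop, hx]
    omega
  · unfold outK
    rw [hl, ← ht, Gl_hist]
    have h1 : (u ++ x.drop t).take (t + 5 - k) = u := by
      rw [← hu, List.take_left]
    have h2 : (u ++ x.drop t).drop (t + 5 - k) = x.drop t := by
      rw [← hu, List.drop_left]
    rw [h1, h2, hnum, List.getElem?_eq_getElem hi, hxi]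
    show some (x.take t ++ x.drop t) = some x
    rw [List.take_append_drop]

theorem outD_spec {k n : ℕ} {x : List Bool} (hκ : κ ≤ 1) (hx : x.length = n)
    (hG : x.take (lastGood e κ n) ∈ Gl e κ (ii e κ) k (lastGood e κ n)) :
    ∃ w : List Bool, w.length + k = n + 7 + k / 2 ∧ outD e κ w = some x := by
  obtain ⟨r, hr, ho⟩ := outK_spec hκ hx hG
  refine ⟨List.replicate (k / 2) true ++ (false :: decide (k % 2 = 1) :: r), ?_, ?_⟩
  · rw [List.length_append, List.length_replicate, List.length_cons, List.length_cons]
    omega
  · have h1 : (List.replicate (k / 2) true ++ (false :: decide (k % 2 = 1) :: r)).idxOf false =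
        k / 2 := by
      rw [List.idxOf_append_of_notMem]
      · rw [List.idxOf_cons_self, List.length_replicate, Nat.add_zero]
      · intro h
        exact absurd (List.eq_of_mem_replicate h) (by simp)
    unfold outD
    rw [h1]
    have h2 : (List.replicate (k / 2) true ++ (false :: decide (k % 2 = 1) :: r)).drop
        (k / 2 + 1) = decide (k % 2 = 1) :: r := by
      have e1 : List.replicate (k / 2) true ++ (false :: decide (k % 2 = 1) :: r) =
          (List.replicate (k / 2) true ++ [false]) ++ (decide (k % 2 = 1) :: r) := by simp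
      have e2 : k / 2 + 1 = (List.replicate (k / 2) true ++ [false]).length := by simp
      rw [e1, e2, List.drop_left]
    have h3 : (List.replicate (k / 2) true ++ (false :: decide (k % 2 = 1) :: r)).drop
        (k / 2 + 2) = r := by
      rw [show k / 2 + 2 = 1 + (k / 2 + 1) by omega, Nat.add_comm 1, ← List.drop_drop, h2]
      rfl
    rw [h2, h3]
    have h4 : 2 * (k / 2) + (if (decide (k % 2 = 1) :: r).head? = some true then 1 else 0) = k := by
      rw [List.head?_cons]
      by_cases hk : k % 2 = 1
      · rw [if_pos (by simp [hk])]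
        omega
      · rw [if_neg (by simp [hk])]
        omega
    rw [h4]
    exact ho

/-- Strings with a prefix in `G_k` are compressible. -/
theorem compress {V : List Bool →. List Bool} (hV : OptimalPlain V) (he : Primrec e)
    (hκ : κ ≤ 1) : ∃ c : ℕ, ∀ (k n : ℕ) (x : List Bool), x.length = n →
    x.take (lastGood e κ n) ∈ Gl e κ (ii e κ) k (lastGood e κ n) →
    cx V x + k ≤ n + k / 2 + c := by
  have hM : Partrec fun w => ((outD e κ w : Option (List Bool)) : Part (List Bool)) :=
    Computable.ofOption (primrec_outD he).to_comp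
  obtain ⟨c, hc⟩ := hV.2 _ hM
  refine ⟨7 + c, fun k n x hx hG => ?_⟩
  obtain ⟨w, hw, ho⟩ := outD_spec hκ hx hG
  obtain ⟨q, hq, hxq⟩ := hc w x (by rw [ho]; exact Part.mem_some x)
  have := cx_le hxq
  omega

end Q217.CR
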