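import Pool.Agent.Q217.CR.Meas
import Pool.Agent.Helper227.KC2

set_option autoImplicit false

/-! The two theorems. -/

namespace Q217.CR

open MeasureTheory Q217.KT
open scoped ENNReal
open Q217.CO (enum_graph)

variable {e : ℕ → Option (List Bool × List Bool)} {κ : ℕ}

/-- The lower bound for the average complexity. -/
theorem avg_lower {M : List Bool →. List Bool} (μ : Measure (ℕ → Bool))
    [IsProbabilityMeasure μ] (he2 : ∀ q x, x ∈ M q ↔ ∃ n, e n = some (q, x))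
    (hM : ∀ x, ∃ q, x ∈ M q) (i0 j : ℕ) :
    (j : ℝ) + i0 - 1 - 2 * ∑ f : Fin j → Bool, μ.real (cyl (List.ofFn f)) *
      ((Dfin e i0 (List.ofFn f) / 2 : ℕ) : ℝ) ≤ avg M μ j := by
  have h1 : ∀ f : Fin j → Bool, μ.real (cyl (List.ofFn f)) * ((j : ℝ) + i0 - 1) -
      2 * (μ.real (cyl (List.ofFn f)) * ((Dfin e i0 (List.ofFn f) / 2 : ℕ) : ℝ)) ≤
      μ.real (cyl (List.ofFn f)) * (cx M (List.ofFn f) : ℝ) := by
    intro f
    obtain ⟨q, hq, hx⟩ := cx_spec (hM (List.ofFn f))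
    obtain ⟨i, hi⟩ := (he2 _ _).1 hx
    have h2 := Dfin_ge (i0 := i0) hi
    rw [List.length_ofFn, hq] at h2
    have h3 : j + i0 ≤ 2 * (Dfin e i0 (List.ofFn f) / 2) + 1 + cx M (List.ofFn f) := by omega
    have h4 : (j : ℝ) + i0 ≤ 2 * ((Dfin e i0 (List.ofFn f) / 2 : ℕ) : ℝ) + 1 +
        cx M (List.ofFn f) := by exact_mod_cast h3
    have h5 : (j : ℝ) + i0 - 1 - 2 * ((Dfin e i0 (List.ofFn f) / 2 : ℕ) : ℝ) ≤
        cx M (List.ofFn f) := by linarith
    have h6 := mul_le_mul_of_nonneg_left h5 (measureReal_nonneg (μ := μ)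
      (s := cyl (List.ofFn f)))
    refine le_trans (le_of_eq ?_) h6
    ring
  have h2 := Finset.sum_le_sum fun f (_ : f ∈ (Finset.univ : Finset (Fin j → Bool))) => h1 f
  rw [Finset.sum_sub_distrib, ← Finset.sum_mul, ← Finset.mul_sum, sum_cyl, one_mul] at h2
  exact h2

/-- Characterization of the Kolmogorov random measures. -/
theorem random_iff {V : List Bool →. List Bool} (hV : OptimalPlain V) :
    ∃ E : ℕ → Set (ℕ → Bool), ∀ (μ : Measure (ℕ → Bool)) [IsProbabilityMeasure μ],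
      (∃ c : ℝ, ∃ᶠ n : ℕ in Filter.atTop, (n : ℝ) - c ≤ avg V μ n) ↔
        ∑' k, μ (E k) ≠ ∞ := by
  obtain ⟨e, he, he2, he3⟩ := enum_graph hV.1
  have hc : Cost e 0 := cost_plain he3
  refine ⟨EE e 0, fun μ _ => ⟨fun h => sum_EE_ne_top hV he (Nat.zero_le 1) hc μ h, fun h => ?_⟩⟩
  obtain ⟨B, hB⟩ := exists_small hc μ h
  refine ⟨1 + 2 * B, Filter.frequently_atTop.2 fun m => ?_⟩
  obtain ⟨j, hj, h1⟩ := hB m
  refine ⟨j, hj, ?_⟩
  have h2 := avg_lower μ he2 (plain_exists hV) (0 * ii e 0 j) j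
  rw [Nat.zero_mul] at h1 h2
  push_cast at h2
  linarith

/-- Convex combinations of Kolmogorov random measures are Kolmogorov random. -/
theorem convex {V : List Bool →. List Bool} (hV : OptimalPlain V) (μ ν : Measure (ℕ → Bool))
    [IsProbabilityMeasure μ] [IsProbabilityMeasure ν]
    (hμ : ∃ c : ℝ, ∃ᶠ n : ℕ in Filter.atTop, (n : ℝ) - c ≤ avg V μ n)
    (hν : ∃ c : ℝ, ∃ᶠ n : ℕ in Filter.atTop, (n : ℝ) - c ≤ avg V ν n)
    (a b : ℝ≥0∞) (hab : a + b = 1) [IsProbabilityMeasure (a • μ + b • ν)] :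
    ∃ c : ℝ, ∃ᶠ n : ℕ in Filter.atTop, (n : ℝ) - c ≤ avg V (a • μ + b • ν) n := by
  obtain ⟨E, hE⟩ := random_iff hV
  rw [hE]
  have h1 := (hE μ).1 hμ
  have h2 := (hE ν).1 hν
  have ha : a ≠ ∞ := fun h => by
    rw [h, top_add] at hab
    exact absurd hab (by simp)
  have hb : b ≠ ∞ := fun h => by
    rw [h, add_top] at hab
    exact absurd hab (by simp)
  have h3 : ∑' k, (a • μ + b • ν) (E k) = a * ∑' k, μ (E k) + b * ∑' k, ν (E k) := by
    rw [← ENNReal.tsum_mul_left, ← ENNReal.tsum_mul_left, ← ENNReal.tsum_add]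
    refine tsum_congr fun k => ?_
    rw [Measure.add_apply, Measure.smul_apply, Measure.smul_apply, smul_eq_mul, smul_eq_mul]
  rw [h3]
  exact ENNReal.add_ne_top.2 ⟨ENNReal.mul_ne_top ha h1, ENNReal.mul_ne_top hb h2⟩

/-- Every string has a description. -/
theorem prefix_exists {U : List Bool →. List Bool} (hU : OptimalPrefixFree U) (x : List Bool) :
    ∃ p, x ∈ U p := by
  have hid : PrefixFree (fun w : List Bool => (if w = [] then some x else none :
      Option (List Bool))) := by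
    refine ⟨Computable.ofOption (Primrec.ite (Primrec.eq.comp Primrec.id (Primrec.const []))
      (Primrec.const (some x)) (Primrec.const none)).to_comp, ?_⟩
    intro p q hp hq _
    by_cases h1 : p = []
    · by_cases h2 : q = []
      · rw [h1, h2]
      · simp [h2] at hq
    · simp [h1] at hp
  obtain ⟨c', hc'⟩ := hU.2 _ hid
  obtain ⟨q, -, hq⟩ := hc' [] x (by simp)
  exact ⟨q, hq⟩

/-- The complexity of the lengths is bounded by the exponents. -/
theorem cx_natStr_le {U : List Bool →. List Bool} (hU : OptimalPrefixFree U) (he : Primrec e)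
    (hc : Cost e κ) : ∃ c : ℕ, ∀ n, cx U (natStr n) ≤ ii e κ n + c := by
  let req : ℕ → Option (ℕ × List Bool) := fun n => some (ii e κ n, natStr n)
  have hreq : Primrec req :=
    Primrec.option_some.comp (Primrec.pair (primrec_ii he) primrec_natStr)
  obtain ⟨M, hM, hpf, hM2⟩ := Pool.Agent.Helper227.KC.kraft_chaitin hreq fun n => by
    refine le_trans (le_of_eq ?_) ((wt_sum_le hc n).trans (by norm_num))
    rfl
  obtain ⟨c, hc'⟩ := hU.2 M ⟨hM, hpf⟩
  refine ⟨c, fun n => ?_⟩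
  obtain ⟨τ, hτ, hy⟩ := hM2 n (ii e κ n) (natStr n) rfl
  obtain ⟨q, hq, hx⟩ := hc' τ _ hy
  rw [← hτ]
  exact (cx_le hx).trans hq

/-- Infinitely often maximal plain complexity implies infinitely often maximal prefix-free
complexity. -/
theorem b1_a1 {V U : List Bool →. List Bool} (hV : OptimalPlain V) (hU : OptimalPrefixFree U)
    (μ : Measure (ℕ → Bool)) [IsProbabilityMeasure μ]
    (hμ : ∃ c : ℝ, ∃ᶠ n : ℕ in Filter.atTop, (n : ℝ) - c ≤ avg V μ n) :
    ∃ c : ℝ, ∃ᶠ n : ℕ in Filter.atTop, (n : ℝ) + cx U (natStr n) - c ≤ avg U μ n := by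
  obtain ⟨e, he, he2, he3⟩ := enum_graph hU.1.1
  have hc : Cost e 1 := by
    refine cost_prefix he3 ?_
    intro m n p q x y hp hq hpq
    exact hU.1.2 p q (Part.dom_iff_mem.2 ⟨x, (he2 _ _).2 ⟨m, hp⟩⟩)
      (Part.dom_iff_mem.2 ⟨y, (he2 _ _).2 ⟨n, hq⟩⟩) hpq
  obtain ⟨B, hB⟩ := exists_small hc μ (sum_EE_ne_top hV he le_rfl hc μ hμ)
  obtain ⟨c0, hc0⟩ := cx_natStr_le hU he hc
  refine ⟨1 + 2 * B + c0, Filter.frequently_atTop.2 fun m => ?_⟩
  obtain ⟨j, hj, h1⟩ := hB m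
  refine ⟨j, hj, ?_⟩
  have h2 := avg_lower μ he2 (prefix_exists hU) (1 * ii e 1 j) j
  rw [Nat.one_mul] at h1 h2
  have h3 : (cx U (natStr j) : ℝ) ≤ ii e 1 j + c0 := by exact_mod_cast hc0 j
  linarith

end Q217.CR
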