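import Pool.Agent.Q217.CR.Cost
import Pool.Agent.Q217.CR.Dec
import Pool.Agent.Q217.KT.Main

set_option autoImplicit false

/-! The events `E_k` and the two implications. -/

namespace Q217.CR

open MeasureTheory Q217.KT
open scoped ENNReal

/-- The initial segment of length `n`. -/
def pre (X : ℕ → Bool) (n : ℕ) : List Bool := List.ofFn fun i : Fin n => X i

theorem pre_length (X : ℕ → Bool) (n : ℕ) : (pre X n).length = n := List.length_ofFn

theorem pre_take (X : ℕ → Bool) {m n : ℕ} (h : m ≤ n) : (pre X n).take m = pre X m := by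
  unfold pre
  rw [ofFn_take h]
  rfl

theorem measurable_pre {γ : Type*} [MeasurableSpace γ] (F : List Bool → γ) (n : ℕ) :
    Measurable fun X : ℕ → Bool => F (pre X n) := by
  have h1 : Measurable fun g : Fin n → Bool => F (List.ofFn g) := measurable_of_countable _
  have h2 : Measurable fun (X : ℕ → Bool) (i : Fin n) => X i :=
    measurable_pi_lambda _ fun i => measurable_pi_apply _
  exact h1.comp h2

theorem lintegral_pre (μ : Measure (ℕ → Bool)) (F : List Bool → ℝ≥0∞) (n : ℕ) :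
    ∫⁻ X, F (pre X n) ∂μ = ∑ f : Fin n → Bool, F (List.ofFn f) * μ (cyl (List.ofFn f)) := by
  have h1 : Measurable fun g : Fin n → Bool => F (List.ofFn g) := measurable_of_countable _
  have h2 : Measurable fun (X : ℕ → Bool) (i : Fin n) => X i :=
    measurable_pi_lambda _ fun i => measurable_pi_apply _
  have h3 : ∫⁻ X, F (pre X n) ∂μ =
      ∫⁻ g, F (List.ofFn g) ∂(μ.map fun (X : ℕ → Bool) (i : Fin n) => X i) :=
    (lintegral_map h1 h2).symm
  rw [h3, lintegral_fintype]
  refine Finset.sum_congr rfl fun f _ => ?_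
  congr 1
  rw [Measure.map_apply h2 (measurableSet_singleton f)]
  congr 1
  ext X
  rw [mem_cyl_ofFn, Set.mem_preimage, Set.mem_singleton_iff]
  exact ⟨fun h i => congrFun h i, fun h => funext h⟩

/-- Integrals of natural functions of an initial segment. -/
theorem lintegral_nat (μ : Measure (ℕ → Bool)) [IsProbabilityMeasure μ] (F : List Bool → ℕ)
    (n : ℕ) : ∫⁻ X, (F (pre X n) : ℝ≥0∞) ∂μ =
    ENNReal.ofReal (∑ f : Fin n → Bool, μ.real (cyl (List.ofFn f)) * (F (List.ofFn f) : ℝ)) := by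
  rw [lintegral_pre μ (fun x => (F x : ℝ≥0∞)) n, ENNReal.ofReal_sum_of_nonneg]
  · refine Finset.sum_congr rfl fun f _ => ?_
    rw [ENNReal.ofReal_mul measureReal_nonneg, ofReal_measureReal, ENNReal.ofReal_natCast,
      mul_comm]
  · intro f _
    exact mul_nonneg measureReal_nonneg (Nat.cast_nonneg _)

section Final

variable (e : ℕ → Option (List Bool × List Bool)) (κ : ℕ)

/-- The final deficiency. -/
noncomputable def Dfin (i0 : ℕ) (x : List Bool) : ℕ := sSup (Set.range fun t => dfc e t i0 x)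

variable {e κ}

theorem Dfin_bdd (i0 : ℕ) (x : List Bool) : BddAbove (Set.range fun t => dfc e t i0 x) := by
  refine ⟨x.length + i0, ?_⟩
  rintro _ ⟨t, rfl⟩
  exact dfc_le t i0 x

theorem dfc_le_Dfin (t i0 : ℕ) (x : List Bool) : dfc e t i0 x ≤ Dfin e i0 x :=
  le_csSup (Dfin_bdd i0 x) ⟨t, rfl⟩

theorem Dfin_spec (i0 : ℕ) (x : List Bool) : ∃ t0, ∀ t, t0 ≤ t → dfc e t i0 x = Dfin e i0 x := by
  obtain ⟨t0, ht0⟩ : Dfin e i0 x ∈ Set.range fun t => dfc e t i0 x :=
    Nat.sSup_mem ⟨_, 0, rfl⟩ (Dfin_bdd i0 x)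
  refine ⟨t0, fun t ht => le_antisymm (dfc_le_Dfin t i0 x) ?_⟩
  rw [← ht0]
  exact dfc_mono ht i0 x

theorem Dfin_ge {i0 i : ℕ} {q x : List Bool} (h : e i = some (q, x)) :
    x.length + i0 ≤ Dfin e i0 x + q.length :=
  (dfc_ge (Nat.lt_succ_self i) h).trans (Nat.add_le_add_right (dfc_le_Dfin _ _ _) _)

variable (e κ)

/-- The final score. -/
noncomputable def sf (j : ℕ) (x : List Bool) : ℝ := 2 ^ (Dfin e (κ * ii e κ j) x / 2)

/-- The tail of the weights. -/
noncomputable def tail (m : ℕ) : ℝ := ∑' j, wt e κ (j + m)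

/-- The events. -/
def EE (k : ℕ) : Set (ℕ → Bool) := {X | ∃ m N, 4 ^ k * tail e κ m <
  ∑ j ∈ Finset.Ico m N, wt e κ j * sf e κ j (pre X j)}

variable {e κ}

theorem sf_pos (j : ℕ) (x : List Bool) : 0 < sf e κ j x := by unfold sf; positivity

theorem measurableSet_EE (k : ℕ) : MeasurableSet (EE e κ k) := by
  have h1 : EE e κ k = ⋃ m, ⋃ N, {X | 4 ^ k * tail e κ m <
      ∑ j ∈ Finset.Ico m N, wt e κ j * sf e κ j (pre X j)} := by
    ext X
    simp only [Set.mem_iUnion]
    rfl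
  rw [h1]
  refine MeasurableSet.iUnion fun m => MeasurableSet.iUnion fun N => ?_
  refine measurableSet_lt measurable_const ?_
  refine Finset.measurable_fun_sum _ fun j _ => ?_
  exact (measurable_pre (fun x => sf e κ j x) j).const_mul _

theorem sum_le_tail (hc : Cost e κ) (m N : ℕ) : ∑ j ∈ Finset.Ico m N, wt e κ j ≤ tail e κ m := by
  rw [Finset.sum_Ico_eq_sum_range]
  unfold tail
  have h1 : Summable fun j => wt e κ (j + m) := (summable_nat_add_iff m).2 (summable_wt hc)
  have h2 := h1.sum_le_tsum (Finset.range (N - m)) fun j _ => (wt_pos _).le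
  refine le_trans (le_of_eq ?_) h2
  exact Finset.sum_congr rfl fun j _ => by rw [Nat.add_comm]

theorem tail_pos (hc : Cost e κ) (m : ℕ) : 0 < tail e κ m := by
  have h := sum_le_tail hc m (m + 1)
  rw [Finset.sum_Ico_succ_top le_rfl, Finset.Ico_self, Finset.sum_empty, zero_add] at h
  exact lt_of_lt_of_le (wt_pos m) h

theorem exists_tail (hc : Cost e κ) (m : ℕ) : ∃ N, m < N ∧
    tail e κ m ≤ 2 * ∑ j ∈ Finset.Ico m N, wt e κ j := by
  have h1 : Summable fun j => wt e κ (j + m) := (summable_nat_add_iff m).2 (summable_wt hc)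
  have h2 := h1.hasSum.tendsto_sum_nat
  have h3 : tail e κ m / 2 < ∑' j, wt e κ (j + m) := by
    have := tail_pos hc m
    unfold tail at this ⊢
    linarith
  have h4 := (h2.eventually (lt_mem_nhds h3)).and (Filter.eventually_gt_atTop 0)
  obtain ⟨n, hn, hn0⟩ := h4.exists
  refine ⟨m + n, by omega, ?_⟩
  rw [Finset.sum_Ico_eq_sum_range, Nat.add_sub_cancel_left]
  have h5 : ∑ j ∈ Finset.range n, wt e κ (m + j) = ∑ j ∈ Finset.range n, wt e κ (j + m) :=
    Finset.sum_congr rfl fun j _ => by rw [Nat.add_comm]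
  rw [h5]
  linarith

/-- Members of `E_k` eventually are in `G_k`. -/
theorem eventually_inG (hc : Cost e κ) {k : ℕ} {X : ℕ → Bool} (hX : X ∈ EE e κ k) :
    ∀ᶠ t in Filter.atTop, pre X t ∈ Gl e κ (ii e κ) k t := by
  obtain ⟨m, N, h⟩ := hX
  have hch : ∀ j, ∃ t0, ∀ t, t0 ≤ t → dfc e t (κ * ii e κ j) (pre X j) =
      Dfin e (κ * ii e κ j) (pre X j) := fun j => Dfin_spec _ _
  choose T hT using hch
  have hmN : m < N := by
    by_contra hcon
    rw [Finset.Ico_eq_empty (by omega), Finset.sum_empty] at h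
    have h1 := tail_pos hc m
    have : 0 < (4 : ℝ) ^ k * tail e κ m := by positivity
    linarith
  filter_upwards [Filter.eventually_ge_atTop (N + (Finset.range N).sup T)] with t ht
  unfold Gl
  rw [List.mem_filter]
  refine ⟨mem_strsL.2 (pre_length X t), ?_⟩
  refine decide_eq_true ((inG_iff k t _).2 ⟨m, by omega, ?_⟩)
  have h1 : (4 : ℝ) ^ k * ∑ j ∈ Finset.Ico m t, wt e κ j ≤ 4 ^ k * tail e κ m :=
    mul_le_mul_of_nonneg_left (sum_le_tail hc m t) (by positivity)
  have h2 : ∑ j ∈ Finset.Ico m N, wt e κ j * sf e κ j (pre X j) ≤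
      ∑ j ∈ Finset.Ico m t, wt e κ j * sc e κ t j ((pre X t).take j) := by
    have h3 : ∑ j ∈ Finset.Ico m N, wt e κ j * sf e κ j (pre X j) =
        ∑ j ∈ Finset.Ico m N, wt e κ j * sc e κ t j ((pre X t).take j) := by
      refine Finset.sum_congr rfl fun j hj => ?_
      have hj' := (Finset.mem_Ico.1 hj).2
      rw [pre_take X (show j ≤ t by omega)]
      unfold sf sc
      rw [hT j t]
      have : T j ≤ (Finset.range N).sup T := Finset.le_sup (Finset.mem_range.2 hj')
      omega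
    rw [h3]
    refine Finset.sum_le_sum_of_subset_of_nonneg (Finset.Ico_subset_Ico_right (by omega)) ?_
    intro j _ _
    exact (mul_pos (wt_pos j) (sc_pos _ _ _)).le
  linarith

theorem eventually_take (hc : Cost e κ) {k : ℕ} {X : ℕ → Bool} (hX : X ∈ EE e κ k) :
    ∀ᶠ n in Filter.atTop, (pre X n).take (lastGood e κ n) ∈
      Gl e κ (ii e κ) k (lastGood e κ n) := by
  have h := (lastGood_tendsto hc).eventually (eventually_inG hc hX)
  filter_upwards [h] with n hn
  rw [pre_take X (lastGood_le n)]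
  exact hn

/-- The first implication. -/
theorem sum_EE_ne_top {V : List Bool →. List Bool} (hV : OptimalPlain V) (he : Primrec e)
    (hκ : κ ≤ 1) (hc : Cost e κ) (μ : Measure (ℕ → Bool)) [IsProbabilityMeasure μ]
    (hB : ∃ c : ℝ, ∃ᶠ n : ℕ in Filter.atTop, (n : ℝ) - c ≤ avg V μ n) :
    ∑' k, μ (EE e κ k) ≠ ∞ := by
  classical
  obtain ⟨c, hB⟩ := hB
  obtain ⟨c1, hc1⟩ := compress (κ := κ) hV he hκ
  obtain ⟨c2, hc2⟩ := plain_le_length hV
  let f : ℕ → (ℕ → Bool) → ℝ≥0∞ := fun n X =>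
    ((2 * (n + (c1 + c2) - cx V (pre X n)) + 1 : ℕ) : ℝ≥0∞)
  have hf : ∀ n, Measurable (f n) := fun n =>
    measurable_pre (fun x => ((2 * (n + (c1 + c2) - cx V x) + 1 : ℕ) : ℝ≥0∞)) n
  have hint : ∀ n : ℕ, ∫⁻ X, f n X ∂μ =
      ENNReal.ofReal (2 * (n + (c1 + c2) - avg V μ n) + 1) := by
    intro n
    have h1 := lintegral_nat μ (fun x => 2 * (n + (c1 + c2) - cx V x) + 1) n
    refine h1.trans ?_
    congr 1
    have h2 : ∀ g : Fin n → Bool, μ.real (cyl (List.ofFn g)) *
        ((2 * (n + (c1 + c2) - cx V (List.ofFn g)) + 1 : ℕ) : ℝ) =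
        μ.real (cyl (List.ofFn g)) * (2 * (n + (c1 + c2)) + 1) -
        2 * (μ.real (cyl (List.ofFn g)) * (cx V (List.ofFn g) : ℝ)) := by
      intro g
      have h3 : cx V (List.ofFn g) ≤ n + (c1 + c2) := by
        have := hc2 (List.ofFn g)
        rw [List.length_ofFn] at this
        omega
      push_cast [Nat.cast_sub h3]
      ring
    rw [Finset.sum_congr rfl fun g _ => h2 g, Finset.sum_sub_distrib, ← Finset.sum_mul,
      ← Finset.mul_sum, sum_cyl]
    unfold avg
    ring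
  have hlim : Filter.liminf (fun n => ∫⁻ X, f n X ∂μ) Filter.atTop ≤
      ENNReal.ofReal (2 * (c + (c1 + c2)) + 1) := by
    refine Filter.liminf_le_of_frequently_le' (hB.mono fun n hn => ?_)
    rw [hint]
    refine ENNReal.ofReal_le_ofReal ?_
    linarith
  have hpt : ∀ (K : ℕ) (X : ℕ → Bool), ∑ k ∈ Finset.range K,
      (EE e κ k).indicator (fun _ => (1 : ℝ≥0∞)) X ≤
      Filter.liminf (fun n => f n X) Filter.atTop := by
    intro K X
    set S := (Finset.range K).filter fun k => X ∈ EE e κ k with hS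
    have h1 : ∑ k ∈ Finset.range K, (EE e κ k).indicator (fun _ => (1 : ℝ≥0∞)) X =
        (S.card : ℝ≥0∞) := by
      rw [hS, Finset.card_filter]
      push_cast
      exact Finset.sum_congr rfl fun k _ => Set.indicator_apply _ _ _
    rw [h1]
    refine Filter.le_liminf_of_le (by isBoundedDefault) ?_
    rcases S.eq_empty_or_nonempty with h0 | hne
    · rw [h0]
      exact Filter.Eventually.of_forall fun n => by simp
    · have hmax := S.max'_mem hne
      set k := S.max' hne with hk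
      have h2 : S.card ≤ k + 1 := by
        have h3 : S ⊆ Finset.range (k + 1) := fun i hi =>
          Finset.mem_range.2 (Nat.lt_succ_iff.2 (S.le_max' i hi))
        have := Finset.card_le_card h3
        rwa [Finset.card_range] at this
      filter_upwards [eventually_take hc (Finset.mem_filter.1 hmax).2] with n hn
      have h4 := hc1 k n (pre X n) (pre_length X n) hn
      have h5 : S.card ≤ 2 * (n + (c1 + c2) - cx V (pre X n)) + 1 := by omega
      exact Nat.cast_le.2 h5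
  refine ne_top_of_le_ne_top (ENNReal.ofReal_ne_top (r := 2 * (c + (c1 + c2)) + 1)) ?_
  refine ENNReal.tsum_le_of_sum_range_le fun K => ?_
  calc ∑ k ∈ Finset.range K, μ (EE e κ k) =
      ∫⁻ X, ∑ k ∈ Finset.range K, (EE e κ k).indicator (fun _ => (1 : ℝ≥0∞)) X ∂μ := by
        rw [lintegral_finsetSum _ fun k _ =>
          (measurable_const.indicator (measurableSet_EE k))]
        refine Finset.sum_congr rfl fun k _ => ?_
        rw [lintegral_indicator (measurableSet_EE k), lintegral_const,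
          Measure.restrict_apply_univ, one_mul]
    _ ≤ ∫⁻ X, Filter.liminf (fun n => f n X) Filter.atTop ∂μ := lintegral_mono fun X => hpt K X
    _ ≤ Filter.liminf (fun n => ∫⁻ X, f n X ∂μ) Filter.atTop := lintegral_liminf_le hf
    _ ≤ _ := hlim

/-- The pointwise estimate for the second implication. -/
theorem pointwise (hc : Cost e κ) {m N : ℕ}
    (hN : tail e κ m ≤ 2 * ∑ j ∈ Finset.Ico m N, wt e κ j) {X : ℕ → Bool} {k : ℕ}
    (hX : X ∉ EE e κ k) :
    ∑ j ∈ Finset.Ico m N, wt e κ j * ((Dfin e (κ * ii e κ j) (pre X j) / 2 : ℕ) : ℝ) ≤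
      (2 * k + 2) * ∑ j ∈ Finset.Ico m N, wt e κ j := by
  have h1 : ∑ j ∈ Finset.Ico m N, wt e κ j * sf e κ j (pre X j) ≤ 4 ^ k * tail e κ m := by
    by_contra hcon
    exact hX ⟨m, N, not_le.1 hcon⟩
  set τ := ∑ j ∈ Finset.Ico m N, wt e κ j with hτ
  have h2 : ∀ d : ℕ, (d : ℝ) ≤ (2 * k + 1) + 2 ^ d * (1 / 2) ^ (2 * k + 1) := by
    intro d
    by_cases hd : d ≤ 2 * k + 1
    · have h3 : (d : ℝ) ≤ 2 * k + 1 := by exact_mod_cast hd
      have h4 : (0 : ℝ) ≤ 2 ^ d * (1 / 2) ^ (2 * k + 1) := by positivity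
      linarith
    · obtain ⟨a, ha⟩ := Nat.exists_eq_add_of_le (not_le.1 hd).le
      rw [ha, pow_add]
      have h3 : (2 : ℝ) ^ (2 * k + 1) * (1 / 2) ^ (2 * k + 1) = 1 := by
        rw [← mul_pow]; norm_num
      have h4 : (2 : ℝ) ^ (2 * k + 1) * 2 ^ a * (1 / 2) ^ (2 * k + 1) = 2 ^ a := by
        calc (2 : ℝ) ^ (2 * k + 1) * 2 ^ a * (1 / 2) ^ (2 * k + 1) =
            2 ^ a * ((2 : ℝ) ^ (2 * k + 1) * (1 / 2) ^ (2 * k + 1)) := by ring
          _ = _ := by rw [h3, mul_one]
      rw [h4]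
      have h5 : (a : ℝ) ≤ 2 ^ a := by exact_mod_cast Nat.lt_two_pow_self.le
      push_cast
      linarith
  have h3 : ∑ j ∈ Finset.Ico m N, wt e κ j * ((Dfin e (κ * ii e κ j) (pre X j) / 2 : ℕ) : ℝ) ≤
      ∑ j ∈ Finset.Ico m N, (wt e κ j * (2 * k + 1) +
        (wt e κ j * sf e κ j (pre X j)) * (1 / 2) ^ (2 * k + 1)) := by
    refine Finset.sum_le_sum fun j _ => ?_
    have h4 := mul_le_mul_of_nonneg_left (h2 (Dfin e (κ * ii e κ j) (pre X j) / 2))
      (wt_pos (e := e) (κ := κ) j).le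
    refine h4.trans (le_of_eq ?_)
    unfold sf
    ring
  refine h3.trans ?_
  rw [Finset.sum_add_distrib, ← Finset.sum_mul, ← Finset.sum_mul, ← hτ]
  have h5 : (∑ j ∈ Finset.Ico m N, wt e κ j * sf e κ j (pre X j)) * (1 / 2) ^ (2 * k + 1) ≤ τ := by
    have h6 : (∑ j ∈ Finset.Ico m N, wt e κ j * sf e κ j (pre X j)) ≤ 4 ^ k * (2 * τ) :=
      h1.trans (mul_le_mul_of_nonneg_left hN (by positivity))
    have h7 := mul_le_mul_of_nonneg_right h6 (show (0 : ℝ) ≤ (1 / 2) ^ (2 * k + 1) by positivity)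
    refine h7.trans (le_of_eq ?_)
    have h8 : (4 : ℝ) ^ k * 2 = 2 ^ (2 * k + 1) := by
      rw [pow_succ, pow_mul]; norm_num
    have h9 : (2 : ℝ) ^ (2 * k + 1) * (1 / 2) ^ (2 * k + 1) = 1 := by
      rw [← mul_pow]; norm_num
    calc (4 : ℝ) ^ k * (2 * τ) * (1 / 2) ^ (2 * k + 1) =
        (4 ^ k * 2) * (1 / 2) ^ (2 * k + 1) * τ := by ring
      _ = _ := by rw [h8, h9, one_mul]
  linarith

/-- The second implication. -/
theorem exists_small (hc : Cost e κ) (μ : Measure (ℕ → Bool)) [IsProbabilityMeasure μ]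
    (hE : ∑' k, μ (EE e κ k) ≠ ∞) : ∃ B : ℝ, ∀ m, ∃ j, m ≤ j ∧
    ∑ f : Fin j → Bool, μ.real (cyl (List.ofFn f)) *
      ((Dfin e (κ * ii e κ j) (List.ofFn f) / 2 : ℕ) : ℝ) ≤ B := by
  classical
  set L := ∑' k, μ (EE e κ k) with hL
  have hB : 2 * L + 2 ≠ ∞ := by
    refine ENNReal.add_ne_top.2 ⟨ENNReal.mul_ne_top (by norm_num) hE, by norm_num⟩
  refine ⟨(2 * L + 2).toReal, fun m => ?_⟩
  obtain ⟨N, hmN, hN⟩ := exists_tail hc m
  by_contra hcon
  push Not at hcon
  let I : ℕ → ℝ≥0∞ := fun j => ∫⁻ X, ((Dfin e (κ * ii e κ j) (pre X j) / 2 : ℕ) : ℝ≥0∞) ∂μ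
  have h1 : ∀ j, m ≤ j → 2 * L + 2 < I j := by
    intro j hj
    show _ < ∫⁻ X, ((Dfin e (κ * ii e κ j) (pre X j) / 2 : ℕ) : ℝ≥0∞) ∂μ
    rw [lintegral_nat μ (fun x => Dfin e (κ * ii e κ j) x / 2) j]
    rw [ENNReal.lt_ofReal_iff_toReal_lt hB]
    exact hcon j hj
  -- the integral of the weighted sum
  have h2 : ∑ j ∈ Finset.Ico m N, ENNReal.ofReal (wt e κ j) * I j =
      ∫⁻ X, ∑ j ∈ Finset.Ico m N, ENNReal.ofReal (wt e κ j) *
        ((Dfin e (κ * ii e κ j) (pre X j) / 2 : ℕ) : ℝ≥0∞) ∂μ := by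
    rw [lintegral_finsetSum]
    · refine Finset.sum_congr rfl fun j _ => ?_
      rw [lintegral_const_mul]
      exact measurable_pre (fun x => ((Dfin e (κ * ii e κ j) x / 2 : ℕ) : ℝ≥0∞)) j
    · intro j _
      exact (measurable_pre (fun x => ((Dfin e (κ * ii e κ j) x / 2 : ℕ) : ℝ≥0∞)) j).const_mul _
  have hτpos : 0 < ∑ j ∈ Finset.Ico m N, wt e κ j := by
    have := tail_pos hc m
    linarith
  have h3 : ∀ X, ∑ j ∈ Finset.Ico m N, ENNReal.ofReal (wt e κ j) *
        ((Dfin e (κ * ii e κ j) (pre X j) / 2 : ℕ) : ℝ≥0∞) ≤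
      ENNReal.ofReal (∑ j ∈ Finset.Ico m N, wt e κ j) *
        (2 * (∑' k, (EE e κ k).indicator (fun _ => (1 : ℝ≥0∞)) X) + 2) := by
    intro X
    by_cases hX : ∃ k, X ∉ EE e κ k
    · have hk := Nat.find_spec hX
      have hmin : ∀ i < Nat.find hX, X ∈ EE e κ i := fun i hi => by
        by_contra h
        exact Nat.find_min hX hi h
      set k := Nat.find hX with hkdef
      have h4 := pointwise hc hN hk
      have h5 : ∑ j ∈ Finset.Ico m N, ENNReal.ofReal (wt e κ j) *
          ((Dfin e (κ * ii e κ j) (pre X j) / 2 : ℕ) : ℝ≥0∞) =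
          ENNReal.ofReal (∑ j ∈ Finset.Ico m N, wt e κ j *
            ((Dfin e (κ * ii e κ j) (pre X j) / 2 : ℕ) : ℝ)) := by
        rw [ENNReal.ofReal_sum_of_nonneg]
        · refine Finset.sum_congr rfl fun j _ => ?_
          rw [ENNReal.ofReal_mul (wt_pos j).le, ENNReal.ofReal_natCast]
        · intro j _
          exact mul_nonneg (wt_pos j).le (Nat.cast_nonneg _)
      rw [h5]
      refine (ENNReal.ofReal_le_ofReal h4).trans ?_
      rw [mul_comm, ENNReal.ofReal_mul hτpos.le]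
      refine mul_le_mul_right ?_ _
      have h6 : ENNReal.ofReal (2 * (k : ℝ) + 2) = 2 * (k : ℝ≥0∞) + 2 := by
        rw [ENNReal.ofReal_add (by positivity) (by norm_num), ENNReal.ofReal_mul (by norm_num),
          ENNReal.ofReal_natCast]
        norm_num
      rw [h6]
      refine add_le_add_left (mul_le_mul_right ?_ _) _
      have h7 : (k : ℝ≥0∞) = ∑ i ∈ Finset.range k,
          (EE e κ i).indicator (fun _ => (1 : ℝ≥0∞)) X := by
        rw [Finset.sum_congr rfl fun i hi =>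
          Set.indicator_of_mem (hmin i (Finset.mem_range.1 hi)) _]
        simp
      rw [h7]
      exact ENNReal.sum_le_tsum _
    · push Not at hX
      have h4 : ∑' k, (EE e κ k).indicator (fun _ => (1 : ℝ≥0∞)) X = ∞ := by
        have h5 : ∀ k, (EE e κ k).indicator (fun _ => (1 : ℝ≥0∞)) X = 1 := fun k =>
          Set.indicator_of_mem (hX k) _
        rw [tsum_congr h5]
        exact ENNReal.tsum_const_eq_top_of_ne_zero one_ne_zero
      rw [h4]
      have h5 : ENNReal.ofReal (∑ j ∈ Finset.Ico m N, wt e κ j) ≠ 0 := by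
        rw [Ne, ENNReal.ofReal_eq_zero, not_le]
        exact hτpos
      have h6 : (2 : ℝ≥0∞) * ∞ + 2 = ∞ := by
        rw [ENNReal.mul_top (by norm_num), top_add]
      rw [h6, ENNReal.mul_top h5]
      exact le_top
  have h4 : ∑ j ∈ Finset.Ico m N, ENNReal.ofReal (wt e κ j) * I j ≤
      ENNReal.ofReal (∑ j ∈ Finset.Ico m N, wt e κ j) * (2 * L + 2) := by
    rw [h2]
    refine (lintegral_mono h3).trans (le_of_eq ?_)
    have hm : ∀ k, Measurable fun X : ℕ → Bool =>
        (EE e κ k).indicator (fun _ => (1 : ℝ≥0∞)) X := fun k =>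
      measurable_const.indicator (measurableSet_EE k)
    have hm' : Measurable fun X : ℕ → Bool =>
        ∑' k, (EE e κ k).indicator (fun _ => (1 : ℝ≥0∞)) X := Measurable.ennreal_tsum hm
    rw [lintegral_const_mul _ ((hm'.const_mul 2).add_const 2), lintegral_add_right _
      measurable_const, lintegral_const_mul _ hm', lintegral_tsum fun k => (hm k).aemeasurable]
    congr 2
    · congr 1
      rw [hL]
      refine tsum_congr fun k => ?_
      rw [lintegral_indicator (measurableSet_EE k), lintegral_const,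
        Measure.restrict_apply_univ, one_mul]
    · rw [lintegral_const, measure_univ, mul_one]
  have h5 : ENNReal.ofReal (∑ j ∈ Finset.Ico m N, wt e κ j) * (2 * L + 2) <
      ∑ j ∈ Finset.Ico m N, ENNReal.ofReal (wt e κ j) * I j := by
    rw [ENNReal.ofReal_sum_of_nonneg fun j _ => (wt_pos j).le, Finset.sum_mul]
    refine ENNReal.sum_lt_sum_of_nonempty ⟨m, Finset.mem_Ico.2 ⟨le_rfl, hmN⟩⟩ ?_
    intro j hj
    refine ENNReal.mul_lt_mul_right ?_ ENNReal.ofReal_ne_top (h1 j (Finset.mem_Ico.1 hj).1)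
    rw [Ne, ENNReal.ofReal_eq_zero, not_le]
    exact wt_pos j
  exact absurd h4 (not_le.2 h5)

end Final

end Q217.CR
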