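import Mathlib
import Pool.Agent.Q217.CO.Run

set_option autoImplicit false

/-! The weights. -/

namespace Q217.CR

open Q217.CO (primrec_sum primrec_sup primrec_pow primrec_num)

/-- All strings of length `t`. -/
def strsL : ℕ → List (List Bool)
  | 0 => [[]]
  | t + 1 => (strsL t).flatMap fun x => [x ++ [false], x ++ [true]]

theorem length_of_mem {t : ℕ} {x : List Bool} (h : x ∈ strsL t) : x.length = t := by
  induction t generalizing x with
  | zero =>
    rw [strsL, List.mem_singleton] at h
    rw [h]
    rfl
  | succ t ih =>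
    rw [strsL, List.mem_flatMap] at h
    obtain ⟨y, hy, hx⟩ := h
    simp only [List.mem_cons, List.not_mem_nil, or_false] at hx
    rcases hx with hx | hx <;> rw [hx, List.length_append, ih hy] <;> rfl

theorem mem_strsL {t : ℕ} {x : List Bool} : x ∈ strsL t ↔ x.length = t := by
  refine ⟨length_of_mem, ?_⟩
  induction t generalizing x with
  | zero =>
    intro h
    rw [List.length_eq_zero_iff.1 h]
    exact List.mem_singleton.2 rfl
  | succ t ih =>
    intro h
    have hne : x ≠ [] := by
      rintro rfl
      simp at h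
    rw [strsL, List.mem_flatMap]
    refine ⟨x.dropLast, ih (by rw [List.length_dropLast, h]; rfl), ?_⟩
    have h1 := List.dropLast_append_getLast hne
    cases hb : x.getLast hne with
    | false =>
      rw [hb] at h1
      simp [h1]
    | true =>
      rw [hb] at h1
      simp [h1]

theorem length_strsL (t : ℕ) : (strsL t).length = 2 ^ t := by
  induction t with
  | zero => rfl
  | succ t ih =>
    rw [strsL, List.length_flatMap]
    simp only [List.length_cons, List.length_nil, List.map_const', List.sum_replicate,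
      smul_eq_mul, ih, pow_succ]

theorem nodup_strsL (t : ℕ) : (strsL t).Nodup := by
  induction t with
  | zero => exact List.nodup_singleton _
  | succ t ih =>
    rw [strsL, List.nodup_flatMap]
    refine ⟨fun x _ => ?_, ?_⟩
    · rw [List.nodup_cons]
      refine ⟨?_, List.nodup_singleton _⟩
      rw [List.mem_singleton]
      intro h
      have := List.append_cancel_left h
      simp at this
    · refine ih.imp ?_
      intro x y hxy
      rw [Function.onFun, List.disjoint_left]
      intro z hz hz'
      simp only [List.mem_cons, List.not_mem_nil, or_false] at hz hz'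
      have h1 : z.dropLast = x := by
        rcases hz with hz | hz <;> rw [hz, List.dropLast_concat]
      have h2 : z.dropLast = y := by
        rcases hz' with hz | hz <;> rw [hz, List.dropLast_concat]
      exact hxy (h1.symm.trans h2)

/-- The strings of length `t` as a finite set. -/
def strsF (t : ℕ) : Finset (List Bool) := ⟨strsL t, nodup_strsL t⟩

theorem mem_strsF {t : ℕ} {x : List Bool} : x ∈ strsF t ↔ x.length = t := by
  show x ∈ strsL t ↔ _
  exact mem_strsL

theorem card_strsF (t : ℕ) : (strsF t).card = 2 ^ t := length_strsL t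

/-- Sums over longer strings of functions of the prefixes. -/
theorem sum_take {t l : ℕ} (h : t ≤ l) (f : List Bool → ℝ) :
    ∑ x ∈ strsF l, f (x.take t) = 2 ^ (l - t) * ∑ x ∈ strsF t, f x := by
  induction l, h using Nat.le_induction with
  | base =>
    rw [Nat.sub_self, pow_zero, one_mul]
    refine Finset.sum_congr rfl fun x hx => ?_
    rw [List.take_of_length_le (mem_strsF.1 hx).le]
  | succ l hl ih =>
    have h1 : ∑ x ∈ strsF (l + 1), f (x.take t) = 2 * ∑ x ∈ strsF l, f (x.take t) := by
      have e1 : ∀ (L : List (List Bool)), (∀ x ∈ L, x.length = l) →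
          ((L.flatMap fun x => [x ++ [false], x ++ [true]]).map fun x => f (x.take t)).sum =
          2 * (L.map fun x => f (x.take t)).sum := by
        intro L hL
        induction L with
        | nil => simp
        | cons x L ih' =>
          rw [List.flatMap_cons, List.map_append, List.sum_append,
            ih' fun y hy => hL y (List.mem_cons_of_mem _ hy)]
          have hx := hL x List.mem_cons_self
          have e2 : ∀ b, (x ++ [b]).take t = x.take t := fun b =>
            List.take_append_of_le_length (by omega)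
          simp only [List.map_cons, List.map_nil, List.sum_cons, List.sum_nil, e2]
          ring
      show ((strsL (l + 1)).map fun x => f (x.take t)).sum =
        2 * ((strsL l).map fun x => f (x.take t)).sum
      exact e1 _ fun x hx => length_of_mem hx
    rw [h1, ih]
    have e3 : l + 1 - t = l - t + 1 := by omega
    rw [e3, pow_succ]
    ring

variable (e : ℕ → Option (List Bool × List Bool)) (κ : ℕ)

/-- The contribution of the item `i` to the deficiency of `x`. -/
def dterm (i0 : ℕ) (x : List Bool) (i : ℕ) : ℕ :=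
  match e i with
  | none => 0
  | some o => if o.2 = x then x.length + i0 - o.1.length else 0

/-- The deficiency of `x` (with bonus `i0`) found by stage `t`. -/
def dfc (t i0 : ℕ) (x : List Bool) : ℕ := (Finset.range t).sup (dterm e i0 x)

/-- The values of the weights from `m` on, times the deficiency weights. -/
def Sn (f : ℕ → ℕ) (t : ℕ) (x : List Bool) (m : ℕ) : ℕ :=
  ∑ j ∈ Finset.range t, if m ≤ j then
    2 ^ (f (t - 1) - f j) * 2 ^ (dfc e t (κ * f j) (x.take j) / 2) else 0

/-- The weights from `m` on. -/
def Wn (f : ℕ → ℕ) (t m : ℕ) : ℕ :=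
  ∑ j ∈ Finset.range t, if m ≤ j then 2 ^ (f (t - 1) - f j) else 0

/-- The set `G_k`. -/
def inG (f : ℕ → ℕ) (k t : ℕ) (x : List Bool) : Prop :=
  ∃ m ∈ List.range t, 4 ^ k * Wn f t m < Sn e κ f t x m

instance (f : ℕ → ℕ) (k t : ℕ) (x : List Bool) : Decidable (inG e κ f k t x) := by
  unfold inG; infer_instance

/-- The list of the members of `G_k`. -/
def Gl (f : ℕ → ℕ) (k t : ℕ) : List (List Bool) := (strsL t).filter fun x => inG e κ f k t x

/-- The stage `t` is good. -/
def good (f : ℕ → ℕ) (t : ℕ) : Prop :=
  ∀ k ∈ List.range (t + f (t - 1) + 1), (Gl e κ f k t).length * 2 ^ k ≤ 2 ^ (t + 5)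

instance (f : ℕ → ℕ) (t : ℕ) : Decidable (good e κ f t) := by
  unfold good; infer_instance

/-- The history. -/
def hist (t : ℕ) : List ℕ :=
  Nat.rec [3] (fun t h => h ++ [h.getD t 0 +
    (if good e κ (fun j => h.getD j 0) (t + 1) then 1 else 0)]) t

/-- The exponents of the weights. -/
def ii (t : ℕ) : ℕ := (hist e κ t).getD t 0

theorem hist_succ (t : ℕ) : hist e κ (t + 1) = hist e κ t ++ [(hist e κ t).getD t 0 +
    (if good e κ (fun j => (hist e κ t).getD j 0) (t + 1) then 1 else 0)] := rfl

theorem hist_length (t : ℕ) : (hist e κ t).length = t + 1 := by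
  induction t with
  | zero => rfl
  | succ t ih => rw [hist_succ, List.length_append, ih]; rfl

theorem hist_getD {j t : ℕ} (h : j ≤ t) : (hist e κ t).getD j 0 = ii e κ j := by
  induction t, h using Nat.le_induction with
  | base => rfl
  | succ t h ih =>
    rw [hist_succ, List.getD_append _ _ _ _ (by rw [hist_length]; omega), ih]

section Congr

variable {e κ} {f g : ℕ → ℕ} {t : ℕ}

theorem Sn_congr (h : ∀ j < t, f j = g j) (x : List Bool) (m : ℕ) :
    Sn e κ f t x m = Sn e κ g t x m := by
  unfold Sn
  refine Finset.sum_congr rfl fun j hj => ?_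
  have hj' := Finset.mem_range.1 hj
  rw [h j hj', h (t - 1) (by omega)]

theorem Wn_congr (h : ∀ j < t, f j = g j) (m : ℕ) : Wn f t m = Wn g t m := by
  unfold Wn
  refine Finset.sum_congr rfl fun j hj => ?_
  have hj' := Finset.mem_range.1 hj
  rw [h j hj', h (t - 1) (by omega)]

theorem inG_congr (h : ∀ j < t, f j = g j) (k : ℕ) (x : List Bool) :
    inG e κ f k t x ↔ inG e κ g k t x := by
  unfold inG
  simp only [Sn_congr h, Wn_congr h]

theorem Gl_congr (h : ∀ j < t, f j = g j) (k : ℕ) : Gl e κ f k t = Gl e κ g k t := by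
  unfold Gl
  refine List.filter_congr fun x _ => ?_
  rw [decide_eq_decide]
  exact inG_congr h k x

theorem good_congr (ht : 0 < t) (h : ∀ j < t, f j = g j) : good e κ f t ↔ good e κ g t := by
  unfold good
  simp only [Gl_congr h, h (t - 1) (by omega)]

end Congr

theorem ii_zero : ii e κ 0 = 3 := rfl

theorem ii_succ (t : ℕ) : ii e κ (t + 1) = ii e κ t +
    (if good e κ (ii e κ) (t + 1) then 1 else 0) := by
  unfold ii
  rw [hist_succ, List.getD_append_right _ _ _ _ (by rw [hist_length]), hist_length,
    Nat.sub_self, List.getD_cons_zero]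
  congr 1
  have h : good e κ (fun j => (hist e κ t).getD j 0) (t + 1) ↔
      good e κ (ii e κ) (t + 1) :=
    good_congr (Nat.succ_pos t) fun j hj => hist_getD e κ (Nat.lt_succ_iff.1 hj)
  by_cases hg : good e κ (ii e κ) (t + 1)
  · rw [if_pos (h.2 hg)]
    exact (if_pos hg).symm
  · rw [if_neg fun h' => hg (h.1 h')]
    exact (if_neg hg).symm

theorem ii_mono : Monotone (ii e κ) := monotone_nat_of_le_succ fun t => by
  rw [ii_succ]
  exact Nat.le_add_right _ _

/-! ### Primitive recursiveness -/

section Prim

variable {e κ}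

theorem primrec_strsL : Primrec strsL := by
  have h : Primrec₂ fun (_ : ℕ) (L : List (List Bool)) =>
      L.flatMap fun x => [x ++ [false], x ++ [true]] := by
    refine Primrec₂.mk (Primrec.list_flatMap Primrec.snd (Primrec₂.mk ?_))
    exact Primrec.list_cons.comp (Primrec.list_append.comp Primrec.snd (Primrec.const [false]))
      (Primrec.list_cons.comp (Primrec.list_append.comp Primrec.snd (Primrec.const [true]))
      (Primrec.const []))
  refine (Primrec.nat_rec₁ [[]] h).of_eq fun t => ?_
  induction t with
  | zero => rfl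
  | succ t ih => rw [strsL, ← ih]

theorem primrec_dfc (he : Primrec e) :
    Primrec fun z : ℕ × ℕ × List Bool => dfc e z.1 z.2.1 z.2.2 := by
  let β : Type := ((ℕ × ℕ × List Bool) × ℕ) × (List Bool × List Bool)
  have x : Primrec fun z : β => z.1.1.2.2 :=
    Primrec.snd.comp (Primrec.snd.comp (Primrec.fst.comp Primrec.fst))
  have i0 : Primrec fun z : β => z.1.1.2.1 :=
    Primrec.fst.comp (Primrec.snd.comp (Primrec.fst.comp Primrec.fst))
  have body : Primrec fun z : β => if z.2.2 = z.1.1.2.2 then
      z.1.1.2.2.length + z.1.1.2.1 - z.2.1.length else 0 :=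
    Primrec.ite (Primrec.eq.comp (Primrec.snd.comp Primrec.snd) x) (Primrec.nat_sub.comp
      (Primrec.nat_add.comp (Primrec.list_length.comp x) i0) (Primrec.list_length.comp
      (Primrec.fst.comp Primrec.snd))) (Primrec.const 0)
  have h : Primrec fun z : (ℕ × ℕ × List Bool) × ℕ => dterm e z.1.2.1 z.1.2.2 z.2 := by
    refine (Primrec.option_casesOn (he.comp Primrec.snd) (Primrec.const 0) body.to₂).of_eq
      fun z => ?_
    unfold dterm
    cases e z.2 <;> rfl
  exact primrec_sup (f := fun (z : ℕ × ℕ × List Bool) i => dterm e z.2.1 z.2.2 i)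
    (g := fun z => z.1) h Primrec.fst

/-- `f` given by the list `h`. -/
theorem primrec_Sn (he : Primrec e) :
    Primrec fun z : (List ℕ × ℕ) × (List Bool × ℕ) =>
      Sn e κ (fun j => z.1.1.getD j 0) z.1.2 z.2.1 z.2.2 := by
  let β : Type := ((List ℕ × ℕ) × (List Bool × ℕ)) × ℕ
  have hh : Primrec fun z : β => z.1.1.1 := Primrec.fst.comp (Primrec.fst.comp Primrec.fst)
  have t : Primrec fun z : β => z.1.1.2 := Primrec.snd.comp (Primrec.fst.comp Primrec.fst)
  have x : Primrec fun z : β => z.1.2.1 := Primrec.fst.comp (Primrec.snd.comp Primrec.fst)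
  have m : Primrec fun z : β => z.1.2.2 := Primrec.snd.comp (Primrec.snd.comp Primrec.fst)
  have j : Primrec fun z : β => z.2 := Primrec.snd
  have fj : Primrec fun z : β => z.1.1.1.getD z.2 0 := (Primrec.list_getD 0).comp hh j
  have ft : Primrec fun z : β => z.1.1.1.getD (z.1.1.2 - 1) 0 :=
    (Primrec.list_getD 0).comp hh (Primrec.nat_sub.comp t (Primrec.const 1))
  have hd : Primrec fun z : β => dfc e z.1.1.2 (κ * z.1.1.1.getD z.2 0) (z.1.2.1.take z.2) :=
    (primrec_dfc he).comp (Primrec.pair t (Primrec.pair (Primrec.nat_mul.comp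
      (Primrec.const κ) fj) (Primrec.list_take.comp j x)))
  have body : Primrec fun z : β => if z.1.2.2 ≤ z.2 then
      2 ^ (z.1.1.1.getD (z.1.1.2 - 1) 0 - z.1.1.1.getD z.2 0) *
        2 ^ (dfc e z.1.1.2 (κ * z.1.1.1.getD z.2 0) (z.1.2.1.take z.2) / 2) else 0 :=
    Primrec.ite (Primrec.nat_le.comp m j) (Primrec.nat_mul.comp (primrec_pow.comp
      (Primrec.const 2) (Primrec.nat_sub.comp ft fj)) (primrec_pow.comp (Primrec.const 2)
      (Primrec.nat_div.comp hd (Primrec.const 2)))) (Primrec.const 0)
  exact primrec_sum body.to₂ (Primrec.snd.comp Primrec.fst)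

theorem primrec_Wn : Primrec fun z : (List ℕ × ℕ) × ℕ =>
    Wn (fun j => z.1.1.getD j 0) z.1.2 z.2 := by
  let β : Type := ((List ℕ × ℕ) × ℕ) × ℕ
  have hh : Primrec fun z : β => z.1.1.1 := Primrec.fst.comp (Primrec.fst.comp Primrec.fst)
  have t : Primrec fun z : β => z.1.1.2 := Primrec.snd.comp (Primrec.fst.comp Primrec.fst)
  have m : Primrec fun z : β => z.1.2 := Primrec.snd.comp Primrec.fst
  have j : Primrec fun z : β => z.2 := Primrec.snd
  have fj : Primrec fun z : β => z.1.1.1.getD z.2 0 := (Primrec.list_getD 0).comp hh j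
  have ft : Primrec fun z : β => z.1.1.1.getD (z.1.1.2 - 1) 0 :=
    (Primrec.list_getD 0).comp hh (Primrec.nat_sub.comp t (Primrec.const 1))
  have body : Primrec fun z : β => if z.1.2 ≤ z.2 then
      2 ^ (z.1.1.1.getD (z.1.1.2 - 1) 0 - z.1.1.1.getD z.2 0) else 0 :=
    Primrec.ite (Primrec.nat_le.comp m j) (primrec_pow.comp
      (Primrec.const 2) (Primrec.nat_sub.comp ft fj)) (Primrec.const 0)
  exact primrec_sum body.to₂ (Primrec.snd.comp Primrec.fst)

theorem primrec_inG (he : Primrec e) : PrimrecPred fun z : (List ℕ × ℕ × ℕ) × List Bool =>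
    inG e κ (fun j => z.1.1.getD j 0) z.1.2.1 z.1.2.2 z.2 := by
  have h : PrimrecRel fun (m : ℕ) (z : (List ℕ × ℕ × ℕ) × List Bool) =>
      4 ^ z.1.2.1 * Wn (fun j => z.1.1.getD j 0) z.1.2.2 m <
        Sn e κ (fun j => z.1.1.getD j 0) z.1.2.2 z.2 m := by
    let β : Type := ℕ × ((List ℕ × ℕ × ℕ) × List Bool)
    have m : Primrec fun z : β => z.1 := Primrec.fst
    have hh : Primrec fun z : β => z.2.1.1 := Primrec.fst.comp (Primrec.fst.comp Primrec.snd)
    have k : Primrec fun z : β => z.2.1.2.1 :=
      Primrec.fst.comp (Primrec.snd.comp (Primrec.fst.comp Primrec.snd))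
    have t : Primrec fun z : β => z.2.1.2.2 :=
      Primrec.snd.comp (Primrec.snd.comp (Primrec.fst.comp Primrec.snd))
    have x : Primrec fun z : β => z.2.2 := Primrec.snd.comp Primrec.snd
    exact Primrec.nat_lt.comp (Primrec.nat_mul.comp (primrec_pow.comp (Primrec.const 4) k)
      (primrec_Wn.comp (Primrec.pair (Primrec.pair hh t) m)))
      ((primrec_Sn he).comp (Primrec.pair (Primrec.pair hh t) (Primrec.pair x m)))
  exact (PrimrecRel.exists_mem_list h).comp (Primrec.list_range.comp (Primrec.snd.comp
    (Primrec.snd.comp Primrec.fst))) Primrec.id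

theorem primrec_Gl (he : Primrec e) : Primrec fun z : List ℕ × ℕ × ℕ =>
    Gl e κ (fun j => z.1.getD j 0) z.2.1 z.2.2 := by
  have h1 : Primrec fun z : (List ℕ × ℕ × ℕ) × List Bool =>
      bif decide (inG e κ (fun j => z.1.1.getD j 0) z.1.2.1 z.1.2.2 z.2) then some z.2
        else none :=
    Primrec.cond (primrec_inG he).decide (Primrec.option_some.comp Primrec.snd)
      (Primrec.const none)
  refine (Primrec.listFilterMap (primrec_strsL.comp (Primrec.snd.comp Primrec.snd))
    h1.to₂).of_eq fun z => ?_
  unfold Gl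
  rw [← List.filterMap_eq_filter]
  refine List.filterMap_congr fun x _ => ?_
  simp [Option.guard]

theorem primrec_good (he : Primrec e) : PrimrecPred fun z : List ℕ × ℕ =>
    good e κ (fun j => z.1.getD j 0) z.2 := by
  have h : PrimrecRel fun (k : ℕ) (z : List ℕ × ℕ) =>
      (Gl e κ (fun j => z.1.getD j 0) k z.2).length * 2 ^ k ≤ 2 ^ (z.2 + 5) := by
    let β : Type := ℕ × (List ℕ × ℕ)
    have k : Primrec fun z : β => z.1 := Primrec.fst
    have hh : Primrec fun z : β => z.2.1 := Primrec.fst.comp Primrec.snd
    have t : Primrec fun z : β => z.2.2 := Primrec.snd.comp Primrec.snd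
    exact Primrec.nat_le.comp (Primrec.nat_mul.comp (Primrec.list_length.comp
      ((primrec_Gl he).comp (Primrec.pair hh (Primrec.pair k t))))
      (primrec_pow.comp (Primrec.const 2) k)) (primrec_pow.comp (Primrec.const 2)
      (Primrec.nat_add.comp t (Primrec.const 5)))
  refine (PrimrecRel.forall_mem_list h).comp (Primrec.list_range.comp (Primrec.succ.comp
    (Primrec.nat_add.comp Primrec.snd ((Primrec.list_getD 0).comp Primrec.fst
    (Primrec.nat_sub.comp Primrec.snd (Primrec.const 1)))))) Primrec.id

theorem primrec_hist (he : Primrec e) : Primrec (hist e κ) := by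
  have h : Primrec₂ fun (t : ℕ) (h : List ℕ) => h ++ [h.getD t 0 +
      (if good e κ (fun j => h.getD j 0) (t + 1) then 1 else 0)] := by
    let β : Type := ℕ × List ℕ
    have t : Primrec fun z : β => z.1 := Primrec.fst
    have hh : Primrec fun z : β => z.2 := Primrec.snd
    have b : Primrec fun z : β => if good e κ (fun j => z.2.getD j 0) (z.1 + 1) then 1 else 0 :=
      Primrec.ite ((primrec_good he).comp (Primrec.pair hh (Primrec.succ.comp t)))
        (Primrec.const 1) (Primrec.const 0)
    exact Primrec₂.mk (Primrec.list_append.comp hh (Primrec.list_cons.comp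
      (Primrec.nat_add.comp ((Primrec.list_getD 0).comp hh t) b) (Primrec.const [])))
  exact Primrec.nat_rec₁ [3] h

theorem primrec_ii (he : Primrec e) : Primrec (ii e κ) :=
  (Primrec.list_getD 0).comp (primrec_hist he) Primrec.id

end Prim

end Q217.CR
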